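import Mathlib

/-! The planar lift: an analytic diffeomorphism with an attracting heteroclinic net. -/

open Filter Topology Set
open scoped ContDiff

namespace Pool.Agent.V1184.Net

/-- first component of the vector field -/
noncomputable def X1 (x y : ℝ) : ℝ :=
  Real.sin x * Real.cos y - Real.sin x * Real.cos x * (Real.sin y * Real.sin y)

/-- second component of the vector field -/
noncomputable def X2 (x y : ℝ) : ℝ :=
  -(Real.sin y * Real.cos x + Real.sin y * Real.cos y * (Real.sin x * Real.sin x))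

/-- the lift -/
noncomputable def F (p : ℝ × ℝ) : ℝ × ℝ := (p.1 + X1 p.1 p.2 / 16, p.2 + X2 p.1 p.2 / 16)

/-- a linear map of the plane with given entries -/
noncomputable def Lm (a b c d : ℝ) : (ℝ × ℝ) →L[ℝ] (ℝ × ℝ) :=
  (a • ContinuousLinearMap.fst ℝ ℝ ℝ + b • ContinuousLinearMap.snd ℝ ℝ ℝ).prod
    (c • ContinuousLinearMap.fst ℝ ℝ ℝ + d • ContinuousLinearMap.snd ℝ ℝ ℝ)

lemma Lm_apply (a b c d : ℝ) (p : ℝ × ℝ) : Lm a b c d p = (a * p.1 + b * p.2, c * p.1 + d * p.2) := by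
  simp [Lm]

lemma Lm_det (a b c d : ℝ) : (Lm a b c d).det = a * d - b * c := by
  rw [ContinuousLinearMap.det, ← LinearMap.det_toMatrix (Module.Basis.finTwoProd ℝ), Matrix.det_fin_two]
  simp [LinearMap.toMatrix_apply, Lm_apply]

lemma Lm_norm_le {a b c d K : ℝ} (h1 : |a| + |b| ≤ K) (h2 : |c| + |d| ≤ K) : ‖Lm a b c d‖ ≤ K := by
  have hK : 0 ≤ K := le_trans (by positivity) h1
  refine ContinuousLinearMap.opNorm_le_bound _ hK fun p => ?_
  rw [Lm_apply, Prod.norm_def]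
  have hp1 : |p.1| ≤ ‖p‖ := norm_fst_le p
  have hp2 : |p.2| ≤ ‖p‖ := norm_snd_le p
  apply max_le
  · rw [Real.norm_eq_abs]
    calc |a * p.1 + b * p.2| ≤ |a * p.1| + |b * p.2| := abs_add_le _ _
      _ = |a| * |p.1| + |b| * |p.2| := by rw [abs_mul, abs_mul]
      _ ≤ |a| * ‖p‖ + |b| * ‖p‖ := by gcongr
      _ = (|a| + |b|) * ‖p‖ := by ring
      _ ≤ K * ‖p‖ := by gcongr
  · rw [Real.norm_eq_abs]
    calc |c * p.1 + d * p.2| ≤ |c * p.1| + |d * p.2| := abs_add_le _ _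
      _ = |c| * |p.1| + |d| * |p.2| := by rw [abs_mul, abs_mul]
      _ ≤ |c| * ‖p‖ + |d| * ‖p‖ := by gcongr
      _ = (|c| + |d|) * ‖p‖ := by ring
      _ ≤ K * ‖p‖ := by gcongr

/-- the derivative -/
noncomputable def DF (x y : ℝ) : (ℝ × ℝ) →L[ℝ] (ℝ × ℝ) :=
  Lm (1 + (Real.cos x * Real.cos y - (Real.cos x * Real.cos x - Real.sin x * Real.sin x) *
        (Real.sin y * Real.sin y)) / 16)
    ((-(Real.sin x * Real.sin y) - Real.sin x * Real.cos x * (2 * (Real.sin y * Real.cos y))) / 16)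
    ((Real.sin y * Real.sin x - Real.sin y * Real.cos y * (2 * (Real.sin x * Real.cos x))) / 16)
    (1 + (-(Real.cos y * Real.cos x + (Real.cos y * Real.cos y - Real.sin y * Real.sin y) *
        (Real.sin x * Real.sin x))) / 16)

lemma hasFDeriv_F (p : ℝ × ℝ) : HasFDerivAt F (DF p.1 p.2) p := by
  have hx : HasFDerivAt (fun q : ℝ × ℝ => q.1) (ContinuousLinearMap.fst ℝ ℝ ℝ) p := hasFDerivAt_fst
  have hy : HasFDerivAt (fun q : ℝ × ℝ => q.2) (ContinuousLinearMap.snd ℝ ℝ ℝ) p := hasFDerivAt_snd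
  have h1 : HasFDerivAt (fun q : ℝ × ℝ => q.1 + X1 q.1 q.2 / 16) ((1 + (Real.cos p.1 * Real.cos p.2 -
      (Real.cos p.1 * Real.cos p.1 - Real.sin p.1 * Real.sin p.1) *
        (Real.sin p.2 * Real.sin p.2)) / 16) • ContinuousLinearMap.fst ℝ ℝ ℝ +
      ((-(Real.sin p.1 * Real.sin p.2) - Real.sin p.1 * Real.cos p.1 *
        (2 * (Real.sin p.2 * Real.cos p.2))) / 16) • ContinuousLinearMap.snd ℝ ℝ ℝ) p := by
    have := hx.add (((hx.sin.mul hy.cos).sub ((hx.sin.mul hx.cos).mul (hy.sin.mul hy.sin))).mul_const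
      (1 / 16 : ℝ))
    refine (this.congr_fderiv ?_).congr_of_eventuallyEq (Eventually.of_forall fun q => ?_)
    · ext
      · simp; ring
      · simp; ring
    · simp only [X1, Pi.add_apply, Pi.mul_apply, Pi.sub_apply]; ring
  have h2 : HasFDerivAt (fun q : ℝ × ℝ => q.2 + X2 q.1 q.2 / 16)
      (((Real.sin p.2 * Real.sin p.1 - Real.sin p.2 * Real.cos p.2 *
        (2 * (Real.sin p.1 * Real.cos p.1))) / 16) • ContinuousLinearMap.fst ℝ ℝ ℝ +
      (1 + (-(Real.cos p.2 * Real.cos p.1 + (Real.cos p.2 * Real.cos p.2 -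
        Real.sin p.2 * Real.sin p.2) * (Real.sin p.1 * Real.sin p.1))) / 16) •
        ContinuousLinearMap.snd ℝ ℝ ℝ) p := by
    have := hy.add (((hy.sin.mul hx.cos).add ((hy.sin.mul hy.cos).mul (hx.sin.mul hx.sin))).mul_const
      (-(1 / 16) : ℝ))
    refine (this.congr_fderiv ?_).congr_of_eventuallyEq (Eventually.of_forall fun q => ?_)
    · ext
      · simp; ring
      · simp; ring
    · simp only [X2, Pi.add_apply, Pi.mul_apply]; ring
  exact h1.prodMk h2

lemma contDiff_F : ContDiff ℝ ω F := by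
  unfold F X1 X2
  apply ContDiff.prodMk
  · apply ContDiff.add contDiff_fst
    apply ContDiff.div_const
    have hsx : ContDiff ℝ ω fun p : ℝ × ℝ => Real.sin p.1 := Real.contDiff_sin.comp contDiff_fst
    have hcx : ContDiff ℝ ω fun p : ℝ × ℝ => Real.cos p.1 := Real.contDiff_cos.comp contDiff_fst
    have hsy : ContDiff ℝ ω fun p : ℝ × ℝ => Real.sin p.2 := Real.contDiff_sin.comp contDiff_snd
    have hcy : ContDiff ℝ ω fun p : ℝ × ℝ => Real.cos p.2 := Real.contDiff_cos.comp contDiff_snd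
    exact (hsx.mul hcy).sub ((hsx.mul hcx).mul (hsy.mul hsy))
  · apply ContDiff.add contDiff_snd
    apply ContDiff.div_const
    have hsx : ContDiff ℝ ω fun p : ℝ × ℝ => Real.sin p.1 := Real.contDiff_sin.comp contDiff_fst
    have hcx : ContDiff ℝ ω fun p : ℝ × ℝ => Real.cos p.1 := Real.contDiff_cos.comp contDiff_fst
    have hsy : ContDiff ℝ ω fun p : ℝ × ℝ => Real.sin p.2 := Real.contDiff_sin.comp contDiff_snd
    have hcy : ContDiff ℝ ω fun p : ℝ × ℝ => Real.cos p.2 := Real.contDiff_cos.comp contDiff_snd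
    exact ((hsy.mul hcx).add ((hsy.mul hcy).mul (hsx.mul hsx))).neg

lemma abs_prod_le {u v : ℝ} (hu : |u| ≤ 1) (hv : |v| ≤ 1) : |u * v| ≤ 1 := by
  rw [abs_mul]; exact mul_le_one₀ hu (abs_nonneg _) hv

lemma DF_det_ne (x y : ℝ) : (DF x y).det ≠ 0 := by
  rw [DF, Lm_det]
  have a1 := abs_prod_le (Real.abs_cos_le_one x) (Real.abs_cos_le_one y)
  have a2 := abs_prod_le (Real.abs_sin_le_one x) (Real.abs_sin_le_one y)
  have a3 := abs_prod_le (Real.abs_sin_le_one x) (Real.abs_cos_le_one x)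
  have a4 := abs_prod_le (Real.abs_sin_le_one y) (Real.abs_cos_le_one y)
  have hx := Real.sin_sq_add_cos_sq x
  have hy := Real.sin_sq_add_cos_sq y
  have b1 : |(Real.cos x * Real.cos x - Real.sin x * Real.sin x) * (Real.sin y * Real.sin y)| ≤ 1 := by
    apply abs_prod_le
    · rw [abs_le]; constructor <;> nlinarith [sq_nonneg (Real.sin x), sq_nonneg (Real.cos x)]
    · exact abs_prod_le (Real.abs_sin_le_one y) (Real.abs_sin_le_one y)
  have b2 : |(Real.cos y * Real.cos y - Real.sin y * Real.sin y) * (Real.sin x * Real.sin x)| ≤ 1 := by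
    apply abs_prod_le
    · rw [abs_le]; constructor <;> nlinarith [sq_nonneg (Real.sin y), sq_nonneg (Real.cos y)]
    · exact abs_prod_le (Real.abs_sin_le_one x) (Real.abs_sin_le_one x)
  have b3 := abs_prod_le a3 a4
  rw [abs_le] at a1 a2 b1 b2 b3
  set A := (Real.cos x * Real.cos y - (Real.cos x * Real.cos x - Real.sin x * Real.sin x) *
        (Real.sin y * Real.sin y)) with hA
  set D := (-(Real.cos y * Real.cos x + (Real.cos y * Real.cos y - Real.sin y * Real.sin y) *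
        (Real.sin x * Real.sin x))) with hD
  set B := (-(Real.sin x * Real.sin y) - Real.sin x * Real.cos x * (2 * (Real.sin y * Real.cos y)))
    with hB
  set C := (Real.sin y * Real.sin x - Real.sin y * Real.cos y * (2 * (Real.sin x * Real.cos x)))
    with hC
  have hA1 : |A| ≤ 3 := by rw [abs_le]; constructor <;> (rw [hA]; nlinarith)
  have hD1 : |D| ≤ 3 := by rw [abs_le]; constructor <;> (rw [hD]; nlinarith)
  have hB1 : |B| ≤ 3 := by rw [abs_le]; constructor <;> (rw [hB]; nlinarith)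
  have hC1 : |C| ≤ 3 := by rw [abs_le]; constructor <;> (rw [hC]; nlinarith)
  rw [abs_le] at hA1 hD1
  have hBC : |B * C| ≤ 9 := by
    rw [abs_mul]
    calc |B| * |C| ≤ 3 * 3 := by gcongr
      _ = 9 := by norm_num
  rw [abs_le] at hBC
  have : 0 < (1 + A / 16) * (1 + D / 16) - B / 16 * (C / 16) := by
    have h1 : 13 / 16 ≤ 1 + A / 16 := by linarith
    have h2 : 13 / 16 ≤ 1 + D / 16 := by linarith
    have h3 : (13 / 16 : ℝ) * (13 / 16) ≤ (1 + A / 16) * (1 + D / 16) := by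
      apply mul_le_mul h1 h2 (by norm_num) (by linarith)
    have h4 : B / 16 * (C / 16) ≤ 9 / 256 := by
      have : B / 16 * (C / 16) = B * C / 256 := by ring
      rw [this]; linarith
    nlinarith
  exact this.ne'

/-! ### Lipschitz estimate and bijectivity -/

lemma lip_mul {a a' b b' s t d : ℝ} (ha : |a| ≤ 1) (hb' : |b'| ≤ 1) (h1 : |a - a'| ≤ s * d)
    (h2 : |b - b'| ≤ t * d) : |a * b - a' * b'| ≤ (s + t) * d := by
  have e : a * b - a' * b' = a * (b - b') + (a - a') * b' := by ring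
  rw [e]
  calc |a * (b - b') + (a - a') * b'| ≤ |a * (b - b')| + |(a - a') * b'| := abs_add_le _ _
    _ = |a| * |b - b'| + |a - a'| * |b'| := by rw [abs_mul, abs_mul]
    _ ≤ 1 * (t * d) + (s * d) * 1 := by
        have : 0 ≤ s * d := (abs_nonneg _).trans h1
        have h0 : 0 ≤ t * d := (abs_nonneg _).trans h2
        gcongr
    _ = (s + t) * d := by ring

lemma sin_lip (x y : ℝ) : |Real.sin x - Real.sin y| ≤ 1 * |x - y| := by
  rw [one_mul]
  have := Real.sin_sub_sin x y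
  rw [this, mul_assoc, abs_mul, abs_mul]
  have h1 : |Real.sin ((x - y) / 2)| ≤ |(x - y) / 2| := Real.abs_sin_le_abs
  have h2 := Real.abs_cos_le_one ((x + y) / 2)
  calc |(2 : ℝ)| * (|Real.sin ((x - y) / 2)| * |Real.cos ((x + y) / 2)|) ≤
      |(2 : ℝ)| * (|(x - y) / 2| * 1) := by gcongr
    _ = |x - y| := by rw [mul_one, abs_div]; norm_num; ring

lemma cos_lip (x y : ℝ) : |Real.cos x - Real.cos y| ≤ 1 * |x - y| := by
  have h := sin_lip (x + Real.pi / 2) (y + Real.pi / 2)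
  rw [Real.sin_add_pi_div_two, Real.sin_add_pi_div_two, add_sub_add_right_eq_sub] at h
  exact h

lemma F_approx (p q : ℝ × ℝ) : ‖F p - F q - (p - q)‖ ≤ 3 / 8 * ‖p - q‖ := by
  set d := ‖p - q‖ with hd
  have h1 : |p.1 - q.1| ≤ d := norm_fst_le (p - q)
  have h2 : |p.2 - q.2| ≤ d := norm_snd_le (p - q)
  have sx : |Real.sin p.1 - Real.sin q.1| ≤ 1 * d := (sin_lip _ _).trans (by linarith)
  have sy : |Real.sin p.2 - Real.sin q.2| ≤ 1 * d := (sin_lip _ _).trans (by linarith)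
  have cx : |Real.cos p.1 - Real.cos q.1| ≤ 1 * d := (cos_lip _ _).trans (by linarith)
  have cy : |Real.cos p.2 - Real.cos q.2| ≤ 1 * d := (cos_lip _ _).trans (by linarith)
  have s1 := fun t : ℝ => Real.abs_sin_le_one t
  have c1 := fun t : ℝ => Real.abs_cos_le_one t
  have t1 := lip_mul (s1 p.1) (c1 q.2) sx cy
  have t2 := lip_mul (s1 p.1) (c1 q.1) sx cx
  have t3 := lip_mul (s1 p.2) (s1 q.2) sy sy
  have t4 := lip_mul (abs_prod_le (s1 p.1) (c1 p.1)) (abs_prod_le (s1 q.2) (s1 q.2)) t2 t3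
  have u1 := lip_mul (s1 p.2) (c1 q.1) sy cx
  have u2 := lip_mul (s1 p.2) (c1 q.2) sy cy
  have u3 := lip_mul (s1 p.1) (s1 q.1) sx sx
  have u4 := lip_mul (abs_prod_le (s1 p.2) (c1 p.2)) (abs_prod_le (s1 q.1) (s1 q.1)) u2 u3
  rw [Prod.norm_def]
  apply max_le
  · change |p.1 + X1 p.1 p.2 / 16 - (q.1 + X1 q.1 q.2 / 16) - (p.1 - q.1)| ≤ _
    have e : p.1 + X1 p.1 p.2 / 16 - (q.1 + X1 q.1 q.2 / 16) - (p.1 - q.1) =
      ((Real.sin p.1 * Real.cos p.2 - Real.sin q.1 * Real.cos q.2) -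
      (Real.sin p.1 * Real.cos p.1 * (Real.sin p.2 * Real.sin p.2) -
        Real.sin q.1 * Real.cos q.1 * (Real.sin q.2 * Real.sin q.2))) / 16 := by
      unfold X1; ring
    rw [e, abs_div]
    have := abs_sub ((Real.sin p.1 * Real.cos p.2 - Real.sin q.1 * Real.cos q.2))
      (Real.sin p.1 * Real.cos p.1 * (Real.sin p.2 * Real.sin p.2) -
        Real.sin q.1 * Real.cos q.1 * (Real.sin q.2 * Real.sin q.2))
    rw [abs_of_pos (show (0 : ℝ) < 16 by norm_num)]
    linarith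
  · change |p.2 + X2 p.1 p.2 / 16 - (q.2 + X2 q.1 q.2 / 16) - (p.2 - q.2)| ≤ _
    have e : p.2 + X2 p.1 p.2 / 16 - (q.2 + X2 q.1 q.2 / 16) - (p.2 - q.2) =
      -((Real.sin p.2 * Real.cos p.1 - Real.sin q.2 * Real.cos q.1) +
      (Real.sin p.2 * Real.cos p.2 * (Real.sin p.1 * Real.sin p.1) -
        Real.sin q.2 * Real.cos q.2 * (Real.sin q.1 * Real.sin q.1))) / 16 := by
      unfold X2; ring
    rw [e, abs_div, abs_neg]
    have := abs_add_le ((Real.sin p.2 * Real.cos p.1 - Real.sin q.2 * Real.cos q.1))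
      (Real.sin p.2 * Real.cos p.2 * (Real.sin p.1 * Real.sin p.1) -
        Real.sin q.2 * Real.cos q.2 * (Real.sin q.1 * Real.sin q.1))
    rw [abs_of_pos (show (0 : ℝ) < 16 by norm_num)]
    linarith

/-- `F` as a homeomorphism -/
noncomputable def Fh : (ℝ × ℝ) ≃ₜ (ℝ × ℝ) :=
  ApproximatesLinearOn.toHomeomorph F (f' := ContinuousLinearEquiv.refl ℝ (ℝ × ℝ))
    (c := (3 / 8 : NNReal)) (by
      intro x _ y _
      have h : (((3 / 8 : NNReal)) : ℝ) = 3 / 8 := by norm_num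
      rw [h]
      exact F_approx x y) (Or.inr (by
      have h1 : ‖((ContinuousLinearEquiv.refl ℝ (ℝ × ℝ)).symm : (ℝ × ℝ) →L[ℝ] (ℝ × ℝ))‖₊ = 1 := by
        have : ((ContinuousLinearEquiv.refl ℝ (ℝ × ℝ)).symm : (ℝ × ℝ) →L[ℝ] (ℝ × ℝ)) =
          ContinuousLinearMap.id ℝ (ℝ × ℝ) := rfl
        rw [this, ← NNReal.coe_inj, coe_nnnorm, ContinuousLinearMap.norm_id]; rfl
      rw [h1, inv_one, ← NNReal.coe_lt_coe]
      norm_num))

lemma Fh_apply (p : ℝ × ℝ) : Fh p = F p := rfl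

lemma contDiff_inv : ContDiff ℝ ω Fh.symm := by
  refine Homeomorph.contDiff_symm Fh (f₀' := fun a =>
    (DF a.1 a.2).toContinuousLinearEquivOfDetNeZero (DF_det_ne _ _)) (fun a => ?_) contDiff_F
  rw [ContinuousLinearMap.coe_toContinuousLinearEquivOfDetNeZero]
  exact hasFDeriv_F a

end Pool.Agent.V1184.Net
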