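import Mathlib
import Pool.Agent.V1184.NetMap

/-! Lyapunov functions for the heteroclinic net map. -/

open Filter Topology Set

namespace Pool.Agent.V1184.Net

/-- sine is close to the identity -/
lemma sin_kap (δ : ℝ) : ∃ κ : ℝ, Real.sin δ = κ * δ ∧ 1 - δ ^ 2 / 6 ≤ κ ∧ κ ≤ 1 := by
  rcases lt_trichotomy δ 0 with h | h | h
  · refine ⟨Real.sin δ / δ, (div_mul_cancel₀ _ h.ne).symm, ?_, ?_⟩
    · have := Real.sin_gt_sub_cube (neg_pos.2 h)
      rw [Real.sin_neg] at this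
      rw [le_div_iff_of_neg h]
      nlinarith
    · have := Real.sin_lt (neg_pos.2 h)
      rw [Real.sin_neg] at this
      rw [div_le_iff_of_neg h]
      linarith
  · exact ⟨1, by simp [h], by simp [h], le_refl _⟩
  · refine ⟨Real.sin δ / δ, (div_mul_cancel₀ _ h.ne').symm, ?_, ?_⟩
    · have := Real.sin_gt_sub_cube h
      rw [le_div_iff₀ h]
      nlinarith
    · have := Real.sin_lt h
      rw [div_le_iff₀ h]
      linarith

lemma cos_upper {δ : ℝ} (h : |δ| ≤ 1) : Real.cos δ ≤ 1 - δ ^ 2 / 4 := by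
  obtain ⟨κ, hκ, hκ1, hκ2⟩ := sin_kap (δ / 2)
  have h2 : Real.cos δ = 1 - 2 * Real.sin (δ / 2) ^ 2 := by
    have := Real.cos_two_mul (δ / 2)
    have h3 := Real.sin_sq_add_cos_sq (δ / 2)
    rw [mul_div_cancel₀ _ (two_ne_zero)] at this
    linarith
  rw [h2, hκ]
  have h4 : δ ^ 2 ≤ 1 := by
    rw [← sq_abs]; nlinarith [abs_nonneg δ]
  have h5 : 3 / 4 ≤ κ := by nlinarith
  have h6 : 9 / 16 ≤ κ ^ 2 := by nlinarith
  nlinarith [sq_nonneg δ]

/-- Ratio lemma. -/
lemma ratio (x c : ℝ) (hc : |c| ≤ 1 / 4) : ∃ R : ℝ,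
    Real.sin (x + c * Real.sin x) = Real.sin x * R ∧ 0 < R ∧ R ≤ 1 + c * Real.cos x := by
  set δ := c * Real.sin x with hδ
  have hs := Real.abs_sin_le_one x
  have hδ1 : |δ| ≤ 1 / 4 := by
    rw [hδ, abs_mul]
    calc |c| * |Real.sin x| ≤ 1 / 4 * 1 := by gcongr
      _ = 1 / 4 := by ring
  set t := c * Real.cos x with ht
  have ht1 : |t| ≤ 1 / 4 := by
    rw [ht, abs_mul]
    calc |c| * |Real.cos x| ≤ 1 / 4 * 1 := by
          have := Real.abs_cos_le_one x
          gcongr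
      _ = 1 / 4 := by ring
  obtain ⟨κ, hκ, hκ1, hκ2⟩ := sin_kap δ
  have hδ2 : δ ^ 2 ≤ 1 / 16 := by
    rw [← sq_abs]; nlinarith [abs_nonneg δ]
  have hcu := cos_upper (hδ1.trans (by norm_num))
  have hcl := Real.one_sub_sq_div_two_le_cos (x := δ)
  rw [abs_le] at ht1
  refine ⟨Real.cos δ + t * κ, ?_, ?_, ?_⟩
  · rw [Real.sin_add, hκ]
    rw [hδ, ht]; ring
  · nlinarith
  · have h1 : t * κ ≤ t + δ ^ 2 / 24 := by
      rcases le_total 0 t with h | h
      · nlinarith [sq_nonneg δ]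
      · nlinarith [sq_nonneg δ]
    nlinarith [sq_nonneg δ]

/-- One-dimensional monotonicity on the net. -/
lemma mono1 {σ : ℝ} (hσ : σ ^ 2 = 1) (x : ℝ) : σ * Real.cos (x + σ * Real.sin x / 16) ≤ σ * Real.cos x ∧
    (σ * Real.cos (x + σ * Real.sin x / 16) = σ * Real.cos x → Real.sin x = 0) := by
  set δ := σ * Real.sin x / 16 with hδ
  have hσ1 : |σ| ≤ 1 := by
    have : σ ^ 2 ≤ 1 ^ 2 := by rw [hσ]; norm_num
    exact abs_le_of_sq_le_sq this (by norm_num)
  have hδ1 : |δ| ≤ 1 / 16 := by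
    rw [hδ, abs_div, abs_mul, abs_of_pos (show (0 : ℝ) < 16 by norm_num)]
    have := Real.abs_sin_le_one x
    calc |σ| * |Real.sin x| / 16 ≤ 1 * 1 / 16 := by gcongr
      _ = 1 / 16 := by norm_num
  obtain ⟨κ, hκ, hκ1, hκ2⟩ := sin_kap δ
  have hδ2 : δ ^ 2 ≤ 1 / 256 := by
    rw [← sq_abs]; nlinarith [abs_nonneg δ]
  have hcu := Real.cos_le_one δ
  have hcl := Real.one_sub_sq_div_two_le_cos (x := δ)
  have hσs : σ * Real.sin x = 16 * δ := by rw [hδ]; ring
  have e : σ * Real.cos (x + δ) - σ * Real.cos x =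
      σ * Real.cos x * (Real.cos δ - 1) - 16 * κ * δ ^ 2 := by
    rw [Real.cos_add, hκ]
    have : σ * (Real.cos x * Real.cos δ - Real.sin x * (κ * δ)) - σ * Real.cos x =
      σ * Real.cos x * (Real.cos δ - 1) - (σ * Real.sin x) * κ * δ := by ring
    rw [this, hσs]; ring
  have h1 : |σ * Real.cos x| ≤ 1 := abs_prod_le hσ1 (Real.abs_cos_le_one x)
  rw [abs_le] at h1
  have h2 : σ * Real.cos x * (Real.cos δ - 1) ≤ δ ^ 2 / 2 := by nlinarith
  have h3 : 9 / 10 ≤ κ := by nlinarith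
  have h4 : 14 * δ ^ 2 ≤ 16 * κ * δ ^ 2 := by nlinarith [sq_nonneg δ]
  constructor
  · nlinarith [sq_nonneg δ]
  · intro h
    have h5 : δ ^ 2 = 0 := by nlinarith [sq_nonneg δ]
    have h6 : δ = 0 := by simpa using h5
    have h7 : σ ≠ 0 := by
      rintro rfl
      norm_num at hσ
    rw [h6, mul_zero] at hσs
    exact (mul_eq_zero.1 hσs).resolve_left h7

/-- The product `sin² x sin² y` decreases. -/
lemma lyap (x y : ℝ) :
    (Real.sin (F (x, y)).1) ^ 2 * (Real.sin (F (x, y)).2) ^ 2 ≤ Real.sin x ^ 2 * Real.sin y ^ 2 ∧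
    ((Real.sin (F (x, y)).1) ^ 2 * (Real.sin (F (x, y)).2) ^ 2 = Real.sin x ^ 2 * Real.sin y ^ 2 →
      Real.sin x = 0 ∨ Real.sin y = 0 ∨ (Real.cos x = 0 ∧ Real.cos y = 0)) := by
  set a := (Real.cos y - Real.cos x * (Real.sin y * Real.sin y)) with ha
  set b := (Real.cos x + Real.cos y * (Real.sin x * Real.sin x)) with hb
  have s1 := fun t : ℝ => Real.abs_sin_le_one t
  have c1 := fun t : ℝ => Real.abs_cos_le_one t
  have ha1 : |a / 16| ≤ 1 / 4 := by
    rw [abs_div, abs_of_pos (show (0 : ℝ) < 16 by norm_num)]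
    have h1 := abs_sub (Real.cos y) (Real.cos x * (Real.sin y * Real.sin y))
    have h2 := abs_prod_le (c1 x) (abs_prod_le (s1 y) (s1 y))
    have h3 := c1 y
    rw [← ha] at h1
    linarith
  have hb1 : |-(b / 16)| ≤ 1 / 4 := by
    rw [abs_neg, abs_div, abs_of_pos (show (0 : ℝ) < 16 by norm_num)]
    have h1 := abs_add_le (Real.cos x) (Real.cos y * (Real.sin x * Real.sin x))
    have h2 := abs_prod_le (c1 y) (abs_prod_le (s1 x) (s1 x))
    have h3 := c1 x
    rw [← hb] at h1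
    linarith
  obtain ⟨R, hR, hR0, hR1⟩ := ratio x (a / 16) ha1
  obtain ⟨Q, hQ, hQ0, hQ1⟩ := ratio y (-(b / 16)) hb1
  have eF1 : (F (x, y)).1 = x + a / 16 * Real.sin x := by
    simp only [F, X1, ha]; ring
  have eF2 : (F (x, y)).2 = y + -(b / 16) * Real.sin y := by
    simp only [F, X2, hb]; ring
  rw [eF1, eF2, hR, hQ]
  -- `g = |∇H|²`
  set g := Real.cos x ^ 2 * Real.sin y ^ 2 + Real.sin x ^ 2 * Real.cos y ^ 2 with hg
  set p := a * Real.cos x with hp
  have hq : b * Real.cos y = p + g := by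
    rw [hp, hg, ha, hb]; ring
  have hg0 : 0 ≤ g := by positivity
  have hp1 : |p / 16| ≤ 1 / 4 := by
    rw [hp, show a * Real.cos x / 16 = a / 16 * Real.cos x by ring, abs_mul]
    calc |a / 16| * |Real.cos x| ≤ 1 / 4 * 1 := by
          have := c1 x
          gcongr
      _ = 1 / 4 := by ring
  rw [abs_le] at hp1
  have hRQ : R * Q ≤ 1 - g / 16 * (1 + p / 16) - p ^ 2 / 256 := by
    have h1 : R ≤ 1 + p / 16 := by
      refine hR1.trans (le_of_eq ?_); rw [hp]; ring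
    have h2 : Q ≤ 1 - (p + g) / 16 := by
      refine hQ1.trans (le_of_eq ?_); rw [← hq]; ring
    calc R * Q ≤ (1 + p / 16) * (1 - (p + g) / 16) :=
          mul_le_mul h1 h2 hQ0.le (by linarith)
      _ = _ := by ring
  have hRQ0 : 0 < R * Q := mul_pos hR0 hQ0
  have hgp : 0 ≤ g / 16 * (1 + p / 16) := mul_nonneg (by positivity) (by linarith)
  have hRQ1 : R * Q ≤ 1 := by nlinarith [sq_nonneg p]
  have e : (Real.sin x * R) ^ 2 * (Real.sin y * Q) ^ 2 =
      (Real.sin x ^ 2 * Real.sin y ^ 2) * (R * Q) ^ 2 := by ring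
  rw [e]
  have hH : 0 ≤ Real.sin x ^ 2 * Real.sin y ^ 2 := by positivity
  constructor
  · have : (R * Q) ^ 2 ≤ 1 := by nlinarith
    nlinarith
  · intro heq
    by_cases hH0 : Real.sin x ^ 2 * Real.sin y ^ 2 = 0
    · rcases mul_eq_zero.1 hH0 with h | h
      · left; simpa using h
      · right; left; simpa using h
    · have h1 : (R * Q) ^ 2 = 1 := by
        have : (Real.sin x ^ 2 * Real.sin y ^ 2) * ((R * Q) ^ 2 - 1) = 0 := by linarith
        have := (mul_eq_zero.1 this).resolve_left hH0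
        linarith
      have h2 : R * Q = 1 := by nlinarith
      have h3 : g / 16 * (1 + p / 16) = 0 := by nlinarith [sq_nonneg p]
      have h4 : g = 0 := by
        rcases mul_eq_zero.1 h3 with h | h
        · linarith
        · linarith
      have h5 : Real.cos x ^ 2 * Real.sin y ^ 2 = 0 := by
        have h6 : 0 ≤ Real.cos x ^ 2 * Real.sin y ^ 2 := by positivity
        have h7 : 0 ≤ Real.sin x ^ 2 * Real.cos y ^ 2 := by positivity
        linarith
      have h6 : Real.sin x ^ 2 * Real.cos y ^ 2 = 0 := by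
        have h7 : 0 ≤ Real.sin x ^ 2 * Real.cos y ^ 2 := by positivity
        linarith
      have hsx : Real.sin x ^ 2 ≠ 0 := fun h => hH0 (by rw [h, zero_mul])
      have hsy : Real.sin y ^ 2 ≠ 0 := fun h => hH0 (by rw [h, mul_zero])
      right; right
      refine ⟨?_, ?_⟩
      · simpa using (mul_eq_zero.1 h5).resolve_right hsy
      · simpa using (mul_eq_zero.1 h6).resolve_left hsx

/-- the net is invariant -/
lemma sin_F_fst (x y : ℝ) : Real.sin (F (x, y)).1 = 0 ↔ Real.sin x = 0 := by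
  have s1 := fun t : ℝ => Real.abs_sin_le_one t
  have c1 := fun t : ℝ => Real.abs_cos_le_one t
  set a := (Real.cos y - Real.cos x * (Real.sin y * Real.sin y)) with ha
  have ha1 : |a / 16| ≤ 1 / 4 := by
    rw [abs_div, abs_of_pos (show (0 : ℝ) < 16 by norm_num)]
    have h1 := abs_sub (Real.cos y) (Real.cos x * (Real.sin y * Real.sin y))
    have h2 := abs_prod_le (c1 x) (abs_prod_le (s1 y) (s1 y))
    have h3 := c1 y
    rw [← ha] at h1
    linarith
  obtain ⟨R, hR, hR0, hR1⟩ := ratio x (a / 16) ha1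
  have eF1 : (F (x, y)).1 = x + a / 16 * Real.sin x := by
    simp only [F, X1, ha]; ring
  rw [eF1, hR, mul_eq_zero]
  exact ⟨fun h => h.resolve_right hR0.ne', fun h => Or.inl h⟩

lemma sin_F_snd (x y : ℝ) : Real.sin (F (x, y)).2 = 0 ↔ Real.sin y = 0 := by
  have s1 := fun t : ℝ => Real.abs_sin_le_one t
  have c1 := fun t : ℝ => Real.abs_cos_le_one t
  set b := (Real.cos x + Real.cos y * (Real.sin x * Real.sin x)) with hb
  have hb1 : |-(b / 16)| ≤ 1 / 4 := by
    rw [abs_neg, abs_div, abs_of_pos (show (0 : ℝ) < 16 by norm_num)]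
    have h1 := abs_add_le (Real.cos x) (Real.cos y * (Real.sin x * Real.sin x))
    have h2 := abs_prod_le (c1 y) (abs_prod_le (s1 x) (s1 x))
    have h3 := c1 x
    rw [← hb] at h1
    linarith
  obtain ⟨Q, hQ, hQ0, hQ1⟩ := ratio y (-(b / 16)) hb1
  have eF2 : (F (x, y)).2 = y + -(b / 16) * Real.sin y := by
    simp only [F, X2, hb]; ring
  rw [eF2, hQ, mul_eq_zero]
  exact ⟨fun h => h.resolve_right hQ0.ne', fun h => Or.inl h⟩

/-- dynamics on the vertical lines of the net -/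
lemma net_vert {x y : ℝ} (hx : Real.sin x = 0) :
    -(Real.cos (F (x, y)).1 * Real.cos (F (x, y)).2) ≤ -(Real.cos x * Real.cos y) ∧
    (-(Real.cos (F (x, y)).1 * Real.cos (F (x, y)).2) = -(Real.cos x * Real.cos y) →
      Real.sin y = 0) := by
  have e1 : (F (x, y)).1 = x := by simp [F, X1, hx]
  have e2 : (F (x, y)).2 = y + -Real.cos x * Real.sin y / 16 := by
    simp [F, X2, hx]; ring
  have hσ : (-Real.cos x) ^ 2 = 1 := by
    have := Real.sin_sq_add_cos_sq x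
    rw [hx] at this
    nlinarith
  obtain ⟨h1, h2⟩ := mono1 hσ y
  rw [e1, e2]
  constructor
  · linarith
  · intro h
    apply h2
    linarith

/-- dynamics on the horizontal lines of the net -/
lemma net_horiz {x y : ℝ} (hy : Real.sin y = 0) :
    Real.cos (F (x, y)).1 * Real.cos (F (x, y)).2 ≤ Real.cos x * Real.cos y ∧
    (Real.cos (F (x, y)).1 * Real.cos (F (x, y)).2 = Real.cos x * Real.cos y →
      Real.sin x = 0) := by
  have e2 : (F (x, y)).2 = y := by simp [F, X2, hy]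
  have e1 : (F (x, y)).1 = x + Real.cos y * Real.sin x / 16 := by
    simp [F, X1, hy]; ring
  have hσ : (Real.cos y) ^ 2 = 1 := by
    have := Real.sin_sq_add_cos_sq y
    rw [hy] at this
    nlinarith
  obtain ⟨h1, h2⟩ := mono1 hσ x
  rw [e1, e2]
  constructor
  · linarith
  · intro h
    apply h2
    linarith

/-! ### Derivatives at the fixed points -/

/-- the norm of the map induced on the exterior algebra of the plane `Λ⁰ ⊕ Λ¹ ⊕ Λ²` -/
noncomputable def lamNorm (A : (ℝ × ℝ) →L[ℝ] (ℝ × ℝ)) : ℝ := max 1 (max ‖A‖ |A.det|)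

lemma det_pow (A : (ℝ × ℝ) →L[ℝ] (ℝ × ℝ)) (n : ℕ) : (A ^ n).det = A.det ^ n := by
  induction n with
  | zero =>
    rw [pow_zero, pow_zero]
    change LinearMap.det (LinearMap.id : (ℝ × ℝ) →ₗ[ℝ] (ℝ × ℝ)) = 1
    exact LinearMap.det_id
  | succ n ih =>
    rw [pow_succ, pow_succ, ← ih]
    change LinearMap.det ((A ^ n : (ℝ × ℝ) →L[ℝ] (ℝ × ℝ)).toLinearMap ∘ₗ A.toLinearMap) = _
    rw [LinearMap.det_comp]

lemma norm_pow_le' (A : (ℝ × ℝ) →L[ℝ] (ℝ × ℝ)) {K : ℝ} (hK : ‖A‖ ≤ K) (n : ℕ) :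
    ‖A ^ n‖ ≤ K ^ n := by
  have h1 : ‖A ^ n‖ ≤ ‖A‖ ^ n := norm_pow_le A n
  exact h1.trans (pow_le_pow_left₀ (norm_nonneg _) hK n)

/-- saddles -/
lemma lamNorm_saddle {σ : ℝ} (hσ : σ = 1 ∨ σ = -1) (n : ℕ) :
    lamNorm ((Lm (1 + σ / 16) 0 0 (1 - σ / 16)) ^ n) = (17 / 16) ^ n := by
  have hn : ‖Lm (1 + σ / 16) 0 0 (1 - σ / 16)‖ ≤ 17 / 16 := by
    apply Lm_norm_le
    · rcases hσ with h | h <;> rw [h] <;> norm_num
    · rcases hσ with h | h <;> rw [h] <;> norm_num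
  have hdet : (Lm (1 + σ / 16) 0 0 (1 - σ / 16)).det = 255 / 256 := by
    rw [Lm_det]
    rcases hσ with h | h <;> rw [h] <;> norm_num
  have h1 : (1 : ℝ) ≤ (17 / 16) ^ n := one_le_pow₀ (by norm_num)
  unfold lamNorm
  rw [det_pow, hdet]
  apply le_antisymm
  · refine max_le h1 (max_le (norm_pow_le' _ hn n) ?_)
    rw [abs_of_nonneg (by positivity)]
    have : ((255 : ℝ) / 256) ^ n ≤ 1 := pow_le_one₀ (by norm_num) (by norm_num)
    linarith
  · apply le_max_of_le_right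
    apply le_max_of_le_left
    -- lower bound on the norm through an eigenvector
    obtain ⟨e, he, hne⟩ : ∃ e : ℝ × ℝ, Lm (1 + σ / 16) 0 0 (1 - σ / 16) e = (17 / 16 : ℝ) • e ∧
        ‖e‖ = 1 := by
      rcases hσ with h | h
      · refine ⟨(1, 0), ?_, by simp⟩
        rw [Lm_apply, h]
        ext <;> norm_num
      · refine ⟨(0, 1), ?_, by simp⟩
        rw [Lm_apply, h]
        ext <;> norm_num
    have hpow : ∀ m : ℕ, ((Lm (1 + σ / 16) 0 0 (1 - σ / 16)) ^ m) e = ((17 / 16 : ℝ) ^ m) • e := by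
      intro m
      induction m with
      | zero => simp
      | succ m ih =>
        rw [pow_succ]
        change ((Lm (1 + σ / 16) 0 0 (1 - σ / 16)) ^ m) (Lm (1 + σ / 16) 0 0 (1 - σ / 16) e) = _
        rw [he, map_smul, ih, smul_smul, ← pow_succ']
    have h2 := ((Lm (1 + σ / 16) 0 0 (1 - σ / 16)) ^ n).le_opNorm e
    rw [hpow, norm_smul, hne, mul_one, mul_one, Real.norm_of_nonneg (by positivity)] at h2
    exact h2

/-- sources -/
lemma lamNorm_source {τ : ℝ} (hτ : τ = 1 ∨ τ = -1) (n : ℕ) :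
    lamNorm ((Lm (1 + 1 / 16) (-τ / 16) (τ / 16) (1 + 1 / 16)) ^ n) = (290 / 256) ^ n := by
  have hn : ‖Lm (1 + 1 / 16) (-τ / 16) (τ / 16) (1 + 1 / 16)‖ ≤ 290 / 256 := by
    apply Lm_norm_le
    · rcases hτ with h | h <;> rw [h] <;> norm_num
    · rcases hτ with h | h <;> rw [h] <;> norm_num
  have hdet : (Lm (1 + 1 / 16) (-τ / 16) (τ / 16) (1 + 1 / 16)).det = 290 / 256 := by
    rw [Lm_det]
    rcases hτ with h | h <;> rw [h] <;> norm_num
  have h1 : (1 : ℝ) ≤ (290 / 256) ^ n := one_le_pow₀ (by norm_num)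
  unfold lamNorm
  rw [det_pow, hdet, abs_of_nonneg (by positivity)]
  apply le_antisymm
  · exact max_le h1 (max_le (norm_pow_le' _ hn n) (le_refl _))
  · exact le_max_of_le_right (le_max_right _ _)

lemma DF_saddle {x y : ℝ} (hx : Real.sin x = 0) (hy : Real.sin y = 0) :
    ∃ σ : ℝ, (σ = 1 ∨ σ = -1) ∧ DF x y = Lm (1 + σ / 16) 0 0 (1 - σ / 16) := by
  have h1 := Real.sin_sq_add_cos_sq x
  have h2 := Real.sin_sq_add_cos_sq y
  rw [hx] at h1
  rw [hy] at h2
  refine ⟨Real.cos x * Real.cos y, ?_, ?_⟩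
  · have h3 : (Real.cos x * Real.cos y) ^ 2 = 1 := by rw [mul_pow]; nlinarith
    exact sq_eq_one_iff.1 h3
  · unfold DF
    rw [hx, hy]
    congr 1 <;> ring

lemma DF_source {x y : ℝ} (hx : Real.cos x = 0) (hy : Real.cos y = 0) :
    ∃ τ : ℝ, (τ = 1 ∨ τ = -1) ∧ DF x y = Lm (1 + 1 / 16) (-τ / 16) (τ / 16) (1 + 1 / 16) := by
  have h1 := Real.sin_sq_add_cos_sq x
  have h2 := Real.sin_sq_add_cos_sq y
  rw [hx] at h1
  rw [hy] at h2
  have h1' : Real.sin x * Real.sin x = 1 := by nlinarith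
  have h2' : Real.sin y * Real.sin y = 1 := by nlinarith
  refine ⟨Real.sin x * Real.sin y, ?_, ?_⟩
  · have h3 : (Real.sin x * Real.sin y) ^ 2 = 1 := by
      calc (Real.sin x * Real.sin y) ^ 2 = (Real.sin x * Real.sin x) * (Real.sin y * Real.sin y) := by ring
        _ = 1 := by rw [h1', h2']; ring
    exact sq_eq_one_iff.1 h3
  · unfold DF
    rw [hx, hy, h1', h2']
    congr 1 <;> ring

lemma F_fixed {x y : ℝ} (h : (Real.sin x = 0 ∧ Real.sin y = 0) ∨ (Real.cos x = 0 ∧ Real.cos y = 0)) :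
    F (x, y) = (x, y) := by
  rcases h with ⟨h1, h2⟩ | ⟨h1, h2⟩
  · simp [F, X1, X2, h1, h2]
  · simp [F, X1, X2, h1, h2]

end Pool.Agent.V1184.Net
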