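import Mathlib

/-! Algebra for the sextic Freud string equation: from a positive solution of the string equation to
a positive functional satisfying the Pearson equation. -/

open Polynomial

namespace Pool.Agent.V1184.Freud

/-- The Jacobi operator `X e_n = e_{n+1} + b_n e_{n-1}` (with `b_0 = 0`). -/
noncomputable def J (b : ℕ → ℝ) : (ℕ →₀ ℝ) →ₗ[ℝ] (ℕ →₀ ℝ) :=
  Finsupp.lsum ℝ fun n => (LinearMap.toSpanSingleton ℝ (ℕ →₀ ℝ)
    (Finsupp.single (n + 1) 1 + Finsupp.single (n - 1) (b n)))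

/-- basis vector -/
noncomputable abbrev e (n : ℕ) : ℕ →₀ ℝ := Finsupp.single n 1

lemma J_e (b : ℕ → ℝ) (n : ℕ) : J b (e n) = e (n + 1) + b n • e (n - 1) := by
  simp [J, e]

lemma J_e_zero {b : ℕ → ℝ} (hb : b 0 = 0) : J b (e 0) = e 1 := by
  rw [J_e, hb]; simp

/-- The weights `h_n = b_1 ⋯ b_n`. -/
noncomputable def hh (b : ℕ → ℝ) (n : ℕ) : ℝ := ∏ i ∈ Finset.range n, b (i + 1)

lemma hh_succ (b : ℕ → ℝ) (n : ℕ) : hh b (n + 1) = hh b n * b (n + 1) :=
  Finset.prod_range_succ _ _

lemma hh_zero (b : ℕ → ℝ) : hh b 0 = 1 := by simp [hh]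

lemma hh_pos {b : ℕ → ℝ} (hb : ∀ n, 1 ≤ n → 0 < b n) (n : ℕ) : 0 < hh b n :=
  Finset.prod_pos fun i _ => hb _ (by omega)

/-- The bilinear form `B(u,v) = Σ h_n u_n v_n`. -/
noncomputable def B (b : ℕ → ℝ) : (ℕ →₀ ℝ) →ₗ[ℝ] (ℕ →₀ ℝ) →ₗ[ℝ] ℝ :=
  Finsupp.lsum ℝ fun n => (LinearMap.toSpanSingleton ℝ ((ℕ →₀ ℝ) →ₗ[ℝ] ℝ)
    (hh b n • Finsupp.lapply n))

lemma B_e (b : ℕ → ℝ) (n : ℕ) (v : ℕ →₀ ℝ) : B b (e n) v = hh b n * v n := by
  simp [B, e]

lemma B_apply (b : ℕ → ℝ) (u v : ℕ →₀ ℝ) : B b u v = u.sum fun n a => hh b n * (a * v n) := by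
  simp [B, Finsupp.sum, LinearMap.sum_apply]
  apply Finset.sum_congr rfl
  intro i _
  ring

lemma B_e_right (b : ℕ → ℝ) (n : ℕ) (u : ℕ →₀ ℝ) : B b u (e n) = hh b n * u n := by
  rw [B_apply, Finsupp.sum]
  by_cases hn : n ∈ u.support
  · rw [Finset.sum_eq_single n]
    · simp
    · intro m _ hm
      simp [hm.symm]
    · intro h; exact absurd hn h
  · rw [Finsupp.notMem_support_iff.1 hn]
    rw [Finset.sum_eq_zero]
    · simp
    · intro m hm
      have : m ≠ n := fun h => hn (h ▸ hm)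
      simp [this.symm]

lemma B_nonneg {b : ℕ → ℝ} (hb : ∀ n, 1 ≤ n → 0 < b n) (u : ℕ →₀ ℝ) : 0 ≤ B b u u := by
  rw [B_apply, Finsupp.sum]
  apply Finset.sum_nonneg
  intro i _
  have := hh_pos hb i
  nlinarith [mul_self_nonneg (u i)]

lemma B_symm (b : ℕ → ℝ) (u v : ℕ →₀ ℝ) : B b u v = B b v u := by
  induction u using Finsupp.induction_linear with
  | zero => simp
  | add f g hf hg => rw [map_add, LinearMap.add_apply, map_add, hf, hg]
  | single n a =>
    have h1 : Finsupp.single n a = a • e n := by simp [e]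
    rw [h1, map_smul, LinearMap.smul_apply, map_smul, B_e, B_e_right]

lemma J_e_apply {b : ℕ → ℝ} (hb0 : b 0 = 0) (n m : ℕ) :
    J b (e n) m = if m = n + 1 then 1 else if m + 1 = n then b n else 0 := by
  rw [J_e]
  simp only [Finsupp.add_apply, Finsupp.smul_apply, e, Finsupp.single_apply, smul_eq_mul]
  rcases Nat.eq_zero_or_pos n with hn | hn
  · subst hn
    by_cases h : m = 1
    · subst h; simp [hb0]
    · have h1 : ¬ (0 + 1 = m) := by omega
      have h2 : ¬ (m = 0 + 1) := by omega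
      simp [hb0, h]
      intro h3; omega
  · by_cases h : m = n + 1
    · subst h
      have h1 : ¬ (n - 1 = n + 1) := by omega
      simp [h1]
    · have h1 : ¬ (n + 1 = m) := by omega
      by_cases h2 : m + 1 = n
      · have h3 : n - 1 = m := by omega
        simp [h, h1, h2, h3]
      · have h3 : ¬ (n - 1 = m) := by omega
        simp [h, h1, h2, h3]

/-- `J` is symmetric for `B`. -/
lemma J_symm {b : ℕ → ℝ} (hb0 : b 0 = 0) (u v : ℕ →₀ ℝ) : B b (J b u) v = B b u (J b v) := by
  induction u using Finsupp.induction_linear with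
  | zero => simp
  | add f g hf hg => simp only [map_add, LinearMap.add_apply, hf, hg]
  | single n a =>
    induction v using Finsupp.induction_linear with
    | zero => simp
    | add f g hf hg => simp only [map_add, hf, hg]
    | single m c =>
      have h1 : Finsupp.single n a = a • e n := by simp [e]
      have h2 : Finsupp.single m c = c • e m := by simp [e]
      rw [h1, h2]
      simp only [map_smul, LinearMap.smul_apply, B_e_right, B_e, J_e_apply hb0]
      split_ifs <;> try omega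
      · obtain rfl : m = n + 1 := by omega
        rw [hh_succ]; simp only [smul_eq_mul]; ring
      · obtain rfl : n = m + 1 := by omega
        rw [hh_succ]; simp only [smul_eq_mul]; ring
      · simp

/-- Powers of `J` move across `B`. -/
lemma J_pow_symm {b : ℕ → ℝ} (hb0 : b 0 = 0) (k : ℕ) (u v : ℕ →₀ ℝ) :
    B b ((J b ^ k) u) v = B b u ((J b ^ k) v) := by
  induction k generalizing u v with
  | zero => simp
  | succ k ih =>
    rw [pow_succ, Module.End.mul_apply, ih, J_symm hb0, ← Module.End.mul_apply, ← pow_succ',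
      ← pow_succ]

/-- `p(J)` is symmetric for `B`. -/
lemma aeval_symm {b : ℕ → ℝ} (hb0 : b 0 = 0) (p : ℝ[X]) (u v : ℕ →₀ ℝ) :
    B b (aeval (J b) p u) v = B b u (aeval (J b) p v) := by
  induction p using Polynomial.induction_on' with
  | add p q hp hq => simp only [map_add, LinearMap.add_apply, hp, hq]
  | monomial n a =>
    simp only [aeval_monomial, Module.algebraMap_end_eq_smul_id, Module.End.mul_apply,
      LinearMap.smul_apply, LinearMap.id_apply, map_smul, J_pow_symm hb0]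

/-- The vector `p(J) e_0`. -/
noncomputable def vec (b : ℕ → ℝ) (p : ℝ[X]) : ℕ →₀ ℝ := aeval (J b) p (e 0)

/-- The functional `L p = (p(J) e_0)_0`. -/
noncomputable def L (b : ℕ → ℝ) : ℝ[X] →ₗ[ℝ] ℝ where
  toFun p := vec b p 0
  map_add' p q := by simp [vec]
  map_smul' a p := by simp [vec]

lemma L_eq_B (b : ℕ → ℝ) (p : ℝ[X]) : L b p = B b (e 0) (vec b p) := by
  rw [B_e, hh_zero, one_mul]; rfl

lemma L_mul {b : ℕ → ℝ} (hb0 : b 0 = 0) (p q : ℝ[X]) : L b (p * q) = B b (vec b p) (vec b q) := by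
  rw [L_eq_B]
  unfold vec
  rw [map_mul, Module.End.mul_apply, ← aeval_symm hb0]

/-- The orthogonal polynomials. -/
noncomputable def P (b : ℕ → ℝ) : ℕ → ℝ[X]
  | 0 => 1
  | 1 => X
  | n + 2 => X * P b (n + 1) - C (b (n + 1)) * P b n

lemma vec_P {b : ℕ → ℝ} (hb0 : b 0 = 0) (n : ℕ) : vec b (P b n) = e n := by
  induction n using Nat.strong_induction_on with
  | _ n ih =>
    match n with
    | 0 => simp [P, vec]
    | 1 => simp [P, vec, J_e_zero hb0]
    | n + 2 =>
      have h1 := ih (n + 1) (by omega)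
      have h2 := ih n (by omega)
      unfold vec at h1 h2 ⊢
      rw [P, map_sub, map_mul, map_mul, LinearMap.sub_apply, Module.End.mul_apply,
        Module.End.mul_apply, h1, h2, aeval_X, aeval_C, J_e]
      simp [Module.algebraMap_end_eq_smul_id]

/-- coordinate formula -/
lemma J_apply {b : ℕ → ℝ} (hb0 : b 0 = 0) (u : ℕ →₀ ℝ) (m : ℕ) :
    J b u m = (if m = 0 then 0 else u (m - 1)) + b (m + 1) * u (m + 1) := by
  induction u using Finsupp.induction_linear with
  | zero => simp
  | add f g hf hg =>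
    simp only [map_add, Finsupp.add_apply, hf, hg]
    split_ifs <;> ring
  | single n a =>
    have h1 : Finsupp.single n a = a • e n := by simp [e]
    rw [h1]
    simp only [map_smul, Finsupp.smul_apply, J_e_apply hb0, smul_eq_mul, e, Finsupp.single_apply]
    rcases Nat.eq_zero_or_pos m with hm | hm
    · subst hm
      by_cases c1 : n = 1
      · subst c1; simp; ring
      · have a1 : ¬ (0 = n + 1) := by omega
        have a2 : ¬ (0 + 1 = n) := by omega
        simp [c1]
        intro h; omega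
    · have a0 : ¬ (m = 0) := by omega
      by_cases c1 : m = n + 1
      · have a1 : n = m - 1 := by omega
        have a2 : ¬ (n = m + 1) := by omega
        simp [c1]
        intro h; omega
      · by_cases c2 : m + 1 = n
        · have a1 : ¬ (n = m - 1) := by omega
          simp [c1, c2, a0, a1]
          ring
        · have a1 : ¬ (n = m - 1) := by omega
          have a2 : ¬ (n = m + 1) := by omega
          simp [c1, c2, a1, a2]

lemma pow_apply_lt {b : ℕ → ℝ} (hb0 : b 0 = 0) (k i : ℕ) (h : k < i) : (J b ^ k) (e 0) i = 0 := by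
  induction k generalizing i with
  | zero =>
    have : ¬ (0 = i) := by omega
    simp [e, this]
  | succ k ih =>
    rw [pow_succ', Module.End.mul_apply, J_apply hb0, if_neg (by omega), ih _ (by omega),
      ih _ (by omega)]
    simp

lemma pow_apply_self {b : ℕ → ℝ} (hb0 : b 0 = 0) (k : ℕ) : (J b ^ k) (e 0) k = 1 := by
  induction k with
  | zero => simp [e]
  | succ k ih =>
    rw [pow_succ', Module.End.mul_apply, J_apply hb0, if_neg (by omega), Nat.add_sub_cancel, ih,
      pow_apply_lt hb0 _ _ (by omega)]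
    simp

lemma pow_apply_parity {b : ℕ → ℝ} (hb0 : b 0 = 0) (k i : ℕ) (h : (i + k) % 2 = 1) :
    (J b ^ k) (e 0) i = 0 := by
  induction k generalizing i with
  | zero =>
    have : ¬ (0 = i) := by omega
    simp [e, this]
  | succ k ih =>
    rw [pow_succ', Module.End.mul_apply, J_apply hb0, ih (i + 1) (by omega)]
    by_cases hi : i = 0
    · simp [hi]
    · rw [if_neg hi, ih (i - 1) (by omega)]; simp

lemma vec_eq_sum (b : ℕ → ℝ) (p : ℝ[X]) (i : ℕ) :
    vec b p i = ∑ k ∈ Finset.range (p.natDegree + 1), p.coeff k * (J b ^ k) (e 0) i := by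
  unfold vec
  rw [aeval_eq_sum_range, LinearMap.sum_apply, Finsupp.finsetSum_apply]
  apply Finset.sum_congr rfl
  intro k _
  simp

lemma vec_apply_lt {b : ℕ → ℝ} (hb0 : b 0 = 0) (p : ℝ[X]) (i : ℕ) (h : p.natDegree < i) :
    vec b p i = 0 := by
  rw [vec_eq_sum]
  apply Finset.sum_eq_zero
  intro k hk
  rw [Finset.mem_range] at hk
  rw [pow_apply_lt hb0 k i (by omega), mul_zero]

lemma vec_apply_le {b : ℕ → ℝ} (hb0 : b 0 = 0) (p : ℝ[X]) (n : ℕ) (h : p.natDegree ≤ n) :
    vec b p n = p.coeff n := by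
  rcases Nat.eq_or_lt_of_le h with h | h
  · rw [vec_eq_sum, Finset.sum_eq_single n]
    · rw [pow_apply_self hb0, mul_one]
    · intro k hk hkn
      rw [Finset.mem_range] at hk
      rw [pow_apply_lt hb0 k n (by omega), mul_zero]
    · intro hn
      rw [Finset.mem_range] at hn
      omega
  · rw [vec_apply_lt hb0 p n h, coeff_eq_zero_of_natDegree_lt h]

/-- matrix elements -/
noncomputable def al (b : ℕ → ℝ) (k m n : ℕ) : ℝ := (J b ^ k) (e n) m

lemma al_succ (b : ℕ → ℝ) (k m n : ℕ) :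
    al b (k + 1) m n = al b k m (n + 1) + b n * al b k m (n - 1) := by
  unfold al
  rw [pow_succ, Module.End.mul_apply, J_e]
  simp only [map_add, map_smul, Finsupp.add_apply, Finsupp.smul_apply, smul_eq_mul]

lemma al_zero (b : ℕ → ℝ) (m n : ℕ) : al b 0 m n = if n = m then 1 else 0 := by
  simp [al, e, Finsupp.single_apply]

lemma al_van (b : ℕ → ℝ) (k m n : ℕ) (h : m + k < n) : al b k m n = 0 := by
  induction k generalizing n with
  | zero => rw [al_zero, if_neg (by omega)]
  | succ k ih => rw [al_succ, ih _ (by omega), ih _ (by omega)]; simp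

section elements
variable {b : ℕ → ℝ}

lemma al1 (j : ℕ) : al b 1 j (j + 1) = b (j + 1) := by
  rw [al_succ, al_zero, al_zero, if_neg (by omega), Nat.add_sub_cancel, if_pos rfl]; ring

lemma al1' (j : ℕ) (hj : 1 ≤ j) : al b 1 j (j - 1) = 1 := by
  rw [al_succ, al_zero, al_zero, if_pos (by omega), if_neg (by omega)]; ring

lemma al2 (j : ℕ) : al b 2 j (j + 2) = b (j + 2) * b (j + 1) := by
  rw [al_succ, al_van _ _ _ _ (by omega), show j + 2 - 1 = j + 1 by omega, al1]; ring

lemma al20 (hb0 : b 0 = 0) (j : ℕ) : al b 2 j j = b (j + 1) + b j := by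
  rw [al_succ, al1]
  rcases Nat.eq_zero_or_pos j with h | h
  · subst h; rw [hb0]; ring
  · rw [al1' j h]; ring

lemma al2' (hb0 : b 0 = 0) (j : ℕ) (hj : 2 ≤ j) : al b 2 j (j - 2) = 1 := by
  rw [al_succ, show j - 2 + 1 = j - 1 by omega, al1' j (by omega)]
  have : b (j - 2) * al b 1 j (j - 2 - 1) = 0 := by
    rcases Nat.eq_or_lt_of_le hj with h | h
    · rw [← h]; simp [hb0]
    · rw [al_succ, al_zero, al_zero, if_neg (by omega), if_neg (by omega)]; ring
  rw [this]; ring

lemma al3 (hb0 : b 0 = 0) (j : ℕ) : al b 3 j (j + 1) = b (j + 2) * b (j + 1) + b (j + 1) * (b (j + 1) + b j) := by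
  rw [al_succ, show j + 1 + 1 = j + 2 by omega, al2, Nat.add_sub_cancel, al20 hb0]

lemma al3' (hb0 : b 0 = 0) (j : ℕ) : b j * al b 3 j (j - 1) = b j * (b (j + 1) + b j + b (j - 1)) := by
  rcases Nat.eq_zero_or_pos j with h | h
  · subst h; rw [hb0]; ring
  · congr 1
    rw [al_succ, show j - 1 + 1 = j by omega, al20 hb0]
    rcases Nat.eq_or_lt_of_le h with h1 | h1
    · rw [← h1]; simp [hb0]
    · rw [show j - 1 - 1 = j - 2 by omega, al2' hb0 j (by omega)]; ring

lemma al33 (hb0 : b 0 = 0) (j : ℕ) : al b 3 j (j + 3) = b (j + 3) * (b (j + 2) * b (j + 1)) := by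
  rw [al_succ, al_van _ _ _ _ (by omega), show j + 3 - 1 = j + 2 by omega, al2]; ring

lemma al5 (hb0 : b 0 = 0) (j : ℕ) : al b 5 j (j + 1) = b (j + 1) * (b (j - 1) * b j + b j ^ 2 +
    2 * b j * b (j + 1) + b j * b (j + 2) + b (j + 1) ^ 2 + 2 * b (j + 1) * b (j + 2) +
    b (j + 2) ^ 2 + b (j + 2) * b (j + 3)) := by
  have h42 : al b 4 j (j + 2) = al b 3 j (j + 3) + b (j + 2) * al b 3 j (j + 1) := by
    rw [al_succ]; rfl
  have h40 : al b 4 j j = al b 3 j (j + 1) + b j * al b 3 j (j - 1) := al_succ _ _ _ _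
  have h5 : al b 5 j (j + 1) = al b 4 j (j + 2) + b (j + 1) * al b 4 j j := by
    rw [al_succ]; rfl
  rw [h5, h42, h40, al3' hb0, al33 hb0, al3 hb0]
  ring

end elements

/-- The string equation. -/
def IsString (τ t : ℝ) (b : ℕ → ℝ) : Prop :=
  ∀ n : ℕ, 1 ≤ n →
    6 * b n * (b (n - 2) * b (n - 1) + b (n - 1) ^ 2 + 2 * b (n - 1) * b n +
      b (n - 1) * b (n + 1) + b n ^ 2 + 2 * b n * b (n + 1) + b (n + 1) ^ 2 +
      b (n + 1) * b (n + 2)) - 4 * τ * b n * (b (n - 1) + b n + b (n + 1)) - 2 * t * b n = n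

/-- `V'(x) = 6 x^5 - 4 τ x^3 - 2 t x`. -/
noncomputable def V' (τ t : ℝ) : ℝ[X] := C 6 * X ^ 5 - C (4 * τ) * X ^ 3 - C (2 * t) * X

lemma V'_elem {τ t : ℝ} {b : ℕ → ℝ} (hb0 : b 0 = 0) (hE : IsString τ t b) (j : ℕ) :
    aeval (J b) (V' τ t) (e (j + 1)) j = (j + 1 : ℕ) := by
  have h := hE (j + 1) (by omega)
  have h5 := al5 hb0 j
  have h3 := al3 hb0 j
  have h1 := al1 (b := b) j
  unfold al at h5 h3 h1
  have e1 : aeval (J b) (V' τ t) (e (j + 1)) j = 6 * (J b ^ 5) (e (j + 1)) j -
      4 * τ * (J b ^ 3) (e (j + 1)) j - 2 * t * (J b ^ 1) (e (j + 1)) j := by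
    unfold V'
    simp [Module.algebraMap_end_eq_smul_id]
    ring
  rw [e1, h5, h3, h1, ← h]
  simp only [Nat.add_sub_cancel, show j + 1 - 2 = j - 1 by omega, show j + 1 + 1 = j + 2 by omega,
    show j + 1 + 2 = j + 3 by omega]
  ring

lemma P_natDegree (b : ℕ → ℝ) (n : ℕ) : (P b n).natDegree = n ∧ (P b n).coeff n = 1 := by
  induction n using Nat.strong_induction_on with
  | _ n ih =>
    match n with
    | 0 => simp [P]
    | 1 => simp [P]
    | n + 2 =>
      obtain ⟨h1, h1'⟩ := ih (n + 1) (by omega)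
      obtain ⟨h2, _⟩ := ih n (by omega)
      have h3 : (C (b (n + 1)) * P b n).natDegree < n + 2 := by
        refine lt_of_le_of_lt (natDegree_C_mul_le _ _) ?_
        omega
      have h4 : (X * P b (n + 1)).natDegree = n + 2 := by
        rw [natDegree_X_mul, h1]
        intro h
        rw [h] at h1'
        simp at h1'
      have h5 : (P b (n + 2)).coeff (n + 2) = 1 := by
        rw [P, coeff_sub, coeff_eq_zero_of_natDegree_lt h3, sub_zero,
          show n + 2 = (n + 1) + 1 by rfl, coeff_X_mul, h1']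
      refine ⟨?_, h5⟩
      apply le_antisymm
      · rw [P]
        refine (natDegree_sub_le _ _).trans (max_le h4.le h3.le)
      · apply le_natDegree_of_ne_zero
        rw [h5]; exact one_ne_zero

/-- parity of a polynomial -/
def Par (p : ℝ[X]) (k : ℕ) : Prop := ∀ i, (i + k) % 2 = 1 → p.coeff i = 0

lemma P_par (b : ℕ → ℝ) (n : ℕ) : Par (P b n) n := by
  induction n using Nat.strong_induction_on with
  | _ n ih =>
    match n with
    | 0 =>
      intro i hi
      have : i ≠ 0 := by omega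
      simp [P, coeff_one, this]
    | 1 =>
      intro i hi
      have : ¬ (1 = i) := by omega
      simp [P, coeff_X, this]
    | n + 2 =>
      intro i hi
      have h1 := ih (n + 1) (by omega)
      have h2 := ih n (by omega)
      rw [P, coeff_sub, coeff_C_mul, h2 i (by omega), mul_zero, sub_zero]
      rcases Nat.eq_zero_or_pos i with h | h
      · subst h; simp
      · obtain ⟨i, rfl⟩ : ∃ k, i = k + 1 := ⟨i - 1, by omega⟩
        rw [coeff_X_mul]
        exact h1 i (by omega)

lemma Par.mul {p q : ℝ[X]} {k l : ℕ} (hp : Par p k) (hq : Par q l) : Par (p * q) (k + l) := by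
  intro i hi
  rw [coeff_mul]
  apply Finset.sum_eq_zero
  intro x hx
  have hx := Finset.HasAntidiagonal.mem_antidiagonal.1 hx
  by_cases h : (x.1 + k) % 2 = 1
  · rw [hp _ h, zero_mul]
  · rw [hq x.2 (by omega), mul_zero]

/-- The Pearson functional. -/
noncomputable def Lam (τ t : ℝ) (b : ℕ → ℝ) (q : ℝ[X]) : ℝ :=
  L b (V' τ t * q) - L b (derivative q)

lemma Lam_PP {τ t : ℝ} {b : ℕ → ℝ} (hb0 : b 0 = 0) (hE : IsString τ t b) (j : ℕ) :
    Lam τ t b (P b (j + 1) * P b j) = 0 := by
  unfold Lam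
  have e1 : L b (V' τ t * (P b (j + 1) * P b j)) = hh b j * (j + 1 : ℕ) := by
    rw [← mul_assoc, L_mul hb0, vec_P hb0, B_e_right]
    congr 1
    have : vec b (V' τ t * P b (j + 1)) = aeval (J b) (V' τ t) (e (j + 1)) := by
      rw [← vec_P hb0 (j + 1)]
      unfold vec
      rw [map_mul, Module.End.mul_apply]
    rw [this]
    exact V'_elem hb0 hE j
  have e2 : L b (derivative (P b (j + 1)) * P b j) = hh b j * (j + 1 : ℕ) := by
    rw [L_mul hb0, vec_P hb0, B_e_right]
    congr 1
    rw [vec_apply_le hb0]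
    · rw [coeff_derivative, (P_natDegree b (j + 1)).2]
      push_cast; ring
    · have := natDegree_derivative_le (P b (j + 1))
      rw [(P_natDegree b (j + 1)).1] at this
      simpa using this
  have e3 : L b (P b (j + 1) * derivative (P b j)) = 0 := by
    rw [L_mul hb0, vec_P hb0, B_e, vec_apply_lt hb0, mul_zero]
    have := natDegree_derivative_le (P b j)
    rw [(P_natDegree b j).1] at this
    omega
  rw [derivative_mul, map_add, e1, e2, e3]
  ring

/-- Moments. -/
noncomputable def mom (b : ℕ → ℝ) (k : ℕ) : ℝ := L b (X ^ k)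

lemma mom_eq (b : ℕ → ℝ) (k : ℕ) : mom b k = (J b ^ k) (e 0) 0 := by
  have h : mom b k = vec b (X ^ k) 0 := rfl
  rw [h, vec, map_pow, aeval_X]

lemma mom_zero (b : ℕ → ℝ) : mom b 0 = 1 := by rw [mom_eq]; simp [e]

lemma mom_odd {b : ℕ → ℝ} (hb0 : b 0 = 0) (k : ℕ) (h : k % 2 = 1) : mom b k = 0 := by
  rw [mom_eq]
  exact pow_apply_parity hb0 k 0 (by omega)

lemma Lam_add (τ t : ℝ) (b : ℕ → ℝ) (p q : ℝ[X]) :
    Lam τ t b (p + q) = Lam τ t b p + Lam τ t b q := by
  unfold Lam
  rw [mul_add, map_add, derivative_add, map_add]; ring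

lemma Lam_smul (τ t : ℝ) (b : ℕ → ℝ) (a : ℝ) (p : ℝ[X]) :
    Lam τ t b (C a * p) = a * Lam τ t b p := by
  unfold Lam
  have e1 : V' τ t * (C a * p) = a • (V' τ t * p) := by rw [smul_eq_C_mul]; ring
  have e2 : derivative (C a * p) = a • derivative p := by
    rw [derivative_C_mul, smul_eq_C_mul]
  rw [e1, e2, map_smul, map_smul, smul_eq_mul, smul_eq_mul]; ring

lemma Lam_sum (τ t : ℝ) (b : ℕ → ℝ) (p : ℝ[X]) :
    Lam τ t b p = ∑ i ∈ Finset.range (p.natDegree + 1), p.coeff i * Lam τ t b (X ^ i) := by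
  conv_lhs => rw [p.as_sum_range_C_mul_X_pow]
  have : ∀ s : Finset ℕ, Lam τ t b (∑ i ∈ s, C (p.coeff i) * X ^ i) =
      ∑ i ∈ s, p.coeff i * Lam τ t b (X ^ i) := by
    intro s
    induction s using Finset.induction_on with
    | empty => simp [Lam]
    | insert a s ha ih => rw [Finset.sum_insert ha, Finset.sum_insert ha, Lam_add, Lam_smul, ih]
  exact this _

lemma Lam_odd {τ t : ℝ} {b : ℕ → ℝ} (hb0 : b 0 = 0) (hE : IsString τ t b) (j : ℕ) :
    Lam τ t b (X ^ (2 * j + 1)) = 0 := by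
  induction j using Nat.strong_induction_on with
  | _ j ih =>
    have h1 := Lam_PP hb0 hE j
    set Q := P b (j + 1) * P b j with hQ
    have hdeg : Q.natDegree = 2 * j + 1 := by
      rw [hQ, natDegree_mul', (P_natDegree b _).1, (P_natDegree b _).1]
      · ring
      · rw [leadingCoeff, leadingCoeff, (P_natDegree b _).1, (P_natDegree b _).1,
          (P_natDegree b _).2, (P_natDegree b _).2]
        simp
    have hpar : Par Q (j + 1 + j) := (P_par b _).mul (P_par b _)
    have hlead : Q.coeff (2 * j + 1) = 1 := by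
      have : Q.leadingCoeff = 1 := by
        rw [hQ, leadingCoeff_mul, leadingCoeff, leadingCoeff, (P_natDegree b _).1,
          (P_natDegree b _).1, (P_natDegree b _).2, (P_natDegree b _).2]
        simp
      rw [leadingCoeff, hdeg] at this
      exact this
    rw [Lam_sum, hdeg, Finset.sum_range_succ, hlead, one_mul] at h1
    have h2 : ∑ i ∈ Finset.range (2 * j + 1), Q.coeff i * Lam τ t b (X ^ i) = 0 := by
      apply Finset.sum_eq_zero
      intro i hi
      rw [Finset.mem_range] at hi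
      rcases Nat.even_or_odd' i with ⟨k, hk | hk⟩
      · rw [hpar i (by omega), zero_mul]
      · rw [hk, ih k (by omega), mul_zero]
    rw [h2, zero_add] at h1
    exact h1

/-- **Pearson equation for the moments.** -/
theorem pearson {τ t : ℝ} {b : ℕ → ℝ} (hb0 : b 0 = 0) (hE : IsString τ t b) (k : ℕ) :
    6 * mom b (k + 5) - 4 * τ * mom b (k + 3) - 2 * t * mom b (k + 1) = k * mom b (k - 1) := by
  rcases Nat.even_or_odd' k with ⟨j, hj | hj⟩
  · rw [mom_odd hb0 (k + 5) (by omega), mom_odd hb0 (k + 3) (by omega),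
      mom_odd hb0 (k + 1) (by omega)]
    rcases Nat.eq_zero_or_pos k with h | h
    · rw [h]; simp
    · rw [mom_odd hb0 (k - 1) (by omega)]; simp
  · have h := Lam_odd hb0 hE j
    rw [← hj] at h
    unfold Lam V' at h
    have e1 : (C 6 * X ^ 5 - C (4 * τ) * X ^ 3 - C (2 * t) * X) * X ^ k =
        (6 : ℝ) • (X ^ (k + 5) : ℝ[X]) - (4 * τ) • (X ^ (k + 3) : ℝ[X]) -
          (2 * t) • (X ^ (k + 1) : ℝ[X]) := by
      simp only [smul_eq_C_mul]; ring
    have e2 : derivative (X ^ k : ℝ[X]) = (k : ℝ) • (X ^ (k - 1) : ℝ[X]) := by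
      rw [derivative_X_pow, smul_eq_C_mul]
    rw [e1, e2, map_sub, map_sub, map_smul, map_smul, map_smul, map_smul] at h
    simp only [smul_eq_mul] at h
    unfold mom
    linarith

lemma mom_add {b : ℕ → ℝ} (hb0 : b 0 = 0) (j l : ℕ) :
    mom b (j + l) = B b ((J b ^ j) (e 0)) ((J b ^ l) (e 0)) := by
  rw [J_pow_symm hb0, B_e, hh_zero, one_mul, ← Module.End.mul_apply, ← pow_add, mom_eq]

/-- Cauchy-Schwarz for `B`. -/
lemma cauchy {b : ℕ → ℝ} (hb : ∀ n, 1 ≤ n → 0 < b n) (u v : ℕ →₀ ℝ) :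
    (B b u v) ^ 2 ≤ B b u u * B b v v := by
  have h : ∀ x : ℝ, 0 ≤ B b v v * (x * x) + (2 * B b u v) * x + B b u u := by
    intro x
    have h1 := B_nonneg hb (u + x • v)
    simp only [map_add, map_smul, LinearMap.add_apply, LinearMap.smul_apply, smul_eq_mul] at h1
    rw [B_symm b v u] at h1
    linarith
  have h2 := discrim_le_zero h
  unfold discrim at h2
  nlinarith

lemma mom_two {b : ℕ → ℝ} (hb0 : b 0 = 0) : mom b 2 = b 1 := by
  rw [mom_eq]
  have := al20 hb0 0
  unfold al at this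
  rw [this, hb0]; ring

lemma mom_four {b : ℕ → ℝ} (hb0 : b 0 = 0) : mom b 4 = b 1 * (b 1 + b 2) := by
  rw [mom_eq]
  have h1 := al_succ b 3 0 0
  rw [hb0, zero_mul, add_zero, al3 hb0 0, hb0] at h1
  unfold al at h1
  rw [h1]
  simp
  ring

end Pool.Agent.V1184.Freud
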