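import Mathlib

/-! A bounded entire-type family `F_k(s) = L(x^k e^{isx})` satisfying the transformed Pearson
equation comes from the density `exp(-x^6+τx^4+tx^2)`. -/

open Filter Topology MeasureTheory Complex FourierTransform Real
open scoped SchwartzMap ContDiff

namespace Pool.Agent.V1184.Freud

/-- The hypotheses on the family. -/
structure Fam (τ t : ℝ) (F : ℕ → ℝ → ℂ) : Prop where
  deriv : ∀ k s, HasDerivAt (F k) (I * F (k + 1) s) s
  bdd : ∀ k, ∃ M : ℝ, ∀ s, ‖F k s‖ ≤ M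
  ode : ∀ s : ℝ, 6 * F 5 s - 4 * τ * F 3 s - 2 * t * F 1 s = I * s * F 0 s

variable {τ t : ℝ} {F : ℕ → ℝ → ℂ}

lemma Fam.cont (hF : Fam τ t F) (k : ℕ) : Continuous (F k) :=
  continuous_iff_continuousAt.2 fun s => (hF.deriv k s).continuousAt

lemma Fam.int_mul (hF : Fam τ t F) (k : ℕ) {g : ℝ → ℂ} (hg : Integrable g) :
    Integrable fun ξ : ℝ => F k (2 * π * ξ) * g ξ := by
  obtain ⟨M, hM⟩ := hF.bdd k
  refine hg.bdd_mul (c := M) ?_ ?_
  · have : Continuous fun ξ : ℝ => F k (2 * π * ξ) := (hF.cont k).comp (by fun_prop)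
    exact this.aestronglyMeasurable
  · exact Eventually.of_forall fun ξ => hM _

/-- `T k φ = L(x^k φ)`. -/
noncomputable def T (F : ℕ → ℝ → ℂ) (k : ℕ) (φ : 𝓢(ℝ, ℂ)) : ℂ :=
  ∫ ξ : ℝ, F k (2 * π * ξ) * (𝓕 φ) ξ

lemma T_add (hF : Fam τ t F) (k : ℕ) (φ ψ : 𝓢(ℝ, ℂ)) : T F k (φ + ψ) = T F k φ + T F k ψ := by
  unfold T
  rw [← integral_add (hF.int_mul k (𝓕 φ).integrable) (hF.int_mul k (𝓕 ψ).integrable)]
  congr 1
  ext ξ
  rw [FourierTransform.fourier_add, add_apply, mul_add]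

lemma T_smul (k : ℕ) (c : ℂ) (φ : 𝓢(ℝ, ℂ)) : T F k (c • φ) = c * T F k φ := by
  unfold T
  rw [← integral_const_mul]
  congr 1
  ext ξ
  rw [FourierTransform.fourier_smul, smul_apply, smul_eq_mul]
  ring

lemma T_sub (hF : Fam τ t F) (k : ℕ) (φ ψ : 𝓢(ℝ, ℂ)) : T F k (φ - ψ) = T F k φ - T F k ψ := by
  have h1 : φ - ψ = φ + (-1 : ℂ) • ψ := by simp [sub_eq_add_neg]
  rw [h1, T_add hF, T_smul]; ring

lemma T_mul (hF : Fam τ t F) (k : ℕ) (φ ψ : 𝓢(ℝ, ℂ)) (h : ∀ x : ℝ, ψ x = x * φ x) :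
    T F k ψ = T F (k + 1) φ := by
  have hd : ∀ ξ : ℝ, HasDerivAt (fun ξ => (𝓕 φ) ξ) (-2 * π * I * (𝓕 ψ) ξ) ξ := by
    intro ξ
    have h1 : Integrable fun x : ℝ => x • φ x := by
      have : (fun x : ℝ => x • φ x) = ψ := by
        ext x; rw [h x]; simp
      rw [this]; exact ψ.integrable
    have h2 := Real.hasDerivAt_fourier (f := φ) φ.integrable h1 ξ
    have h3 : (fun x : ℝ ↦ (-2 * π * I * x) • φ x) = ((-2 * π * I) • ψ : 𝓢(ℝ, ℂ)) := by
      ext x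
      rw [smul_apply, h x]
      simp; ring
    rw [h3] at h2
    have h4 : 𝓕 (((-2 * π * I) • ψ : 𝓢(ℝ, ℂ)) : ℝ → ℂ) ξ = -2 * π * I * (𝓕 ψ) ξ := by
      rw [← SchwartzMap.fourier_coe, FourierTransform.fourier_smul, smul_apply,
        smul_eq_mul]
    rw [h4] at h2
    exact h2
  have hu : ∀ ξ : ℝ, HasDerivAt (fun ξ : ℝ => F k (2 * π * ξ))
      (2 * π * (I * F (k + 1) (2 * π * ξ))) ξ := by
    intro ξ
    have h1 := (hF.deriv k (2 * π * ξ)).scomp ξ ((hasDerivAt_id ξ).const_mul (2 * π))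
    have h2 : (2 * π * 1) • (I * F (k + 1) (2 * π * ξ)) = 2 * π * (I * F (k + 1) (2 * π * ξ)) := by
      simp
    rw [h2] at h1
    exact h1
  have key := integral_mul_deriv_eq_deriv_mul_of_integrable (fun ξ _ => hu ξ) (fun ξ _ => hd ξ)
    (by
      have := (hF.int_mul k (𝓕 ψ).integrable).const_mul (-2 * π * I)
      refine this.congr (Eventually.of_forall fun ξ => ?_)
      simp only [Pi.mul_apply]; ring)
    (by
      have := (hF.int_mul (k + 1) (𝓕 φ).integrable).const_mul (2 * π * I)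
      refine this.congr (Eventually.of_forall fun ξ => ?_)
      simp only [Pi.mul_apply]; ring)
    (hF.int_mul k (𝓕 φ).integrable)
  have e1 : ∫ ξ : ℝ, F k (2 * π * ξ) * (-2 * π * I * (𝓕 ψ) ξ) = (-2 * π * I) * T F k ψ := by
    unfold T
    rw [← integral_const_mul]
    congr 1; ext ξ; ring
  have e2 : ∫ ξ : ℝ, 2 * π * (I * F (k + 1) (2 * π * ξ)) * (𝓕 φ) ξ = (2 * π * I) * T F (k + 1) φ := by
    unfold T
    rw [← integral_const_mul]
    congr 1; ext ξ; ring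
  rw [e1, e2] at key
  have h2 : (2 * π * I : ℂ) ≠ 0 := by
    simp [Real.pi_ne_zero]
  have h3 : (2 * π * I : ℂ) * T F k ψ = (2 * π * I) * T F (k + 1) φ := by
    linear_combination -key
  exact mul_left_cancel₀ h2 h3

lemma T_pow (hF : Fam τ t F) (j : ℕ) (k : ℕ) (φ ψ : 𝓢(ℝ, ℂ)) (hφ : HasCompactSupport φ)
    (h : ∀ x : ℝ, ψ x = x ^ j * φ x) : T F k ψ = T F (k + j) φ := by
  induction j generalizing ψ k with
  | zero =>
    have : ψ = φ := by ext x; rw [h x]; simp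
    rw [this]; rfl
  | succ j ih =>
    have hc : HasCompactSupport fun x : ℝ => (x : ℂ) ^ j * φ x := hφ.mul_left
    have hs : ContDiff ℝ ∞ fun x : ℝ => (x : ℂ) ^ j * φ x := by
      have h1 : ContDiff ℝ ∞ fun x : ℝ => (x : ℂ) := Complex.ofRealCLM.contDiff
      exact (h1.pow j).mul φ.smooth'
    have h1 := ih k (hc.toSchwartzMap hs) (fun x => rfl)
    have h2 := ih (k + 1) (hc.toSchwartzMap hs) (fun x => rfl)
    have h3 := T_mul hF k (hc.toSchwartzMap hs) ψ (fun x => by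
      rw [h x]
      simp only [HasCompactSupport.toSchwartzMap_toFun]
      ring)
    rw [h3, h2]
    congr 1
    ring

lemma T_deriv (hF : Fam τ t F) (φ ψ : 𝓢(ℝ, ℂ)) (hφ : HasCompactSupport φ)
    (h : ∀ x : ℝ, ψ x = (6 * x ^ 5 - 4 * τ * x ^ 3 - 2 * t * x) * φ x - deriv φ x) :
    T F 0 ψ = 0 := by
  have h1 : ContDiff ℝ ∞ fun x : ℝ => (x : ℂ) := Complex.ofRealCLM.contDiff
  have hc : ∀ j, HasCompactSupport fun x : ℝ => (x : ℂ) ^ j * φ x := fun j => hφ.mul_left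
  have hs : ∀ j, ContDiff ℝ ∞ fun x : ℝ => (x : ℂ) ^ j * φ x := fun j => (h1.pow j).mul φ.smooth'
  set Φ : ℕ → 𝓢(ℝ, ℂ) := fun j => (hc j).toSchwartzMap (hs j) with hΦ
  have hT : ∀ j, T F 0 (Φ j) = T F j φ := by
    intro j
    have := T_pow hF j 0 φ (Φ j) hφ (fun x => rfl)
    rw [Nat.zero_add] at this
    exact this
  have hψ : ψ = (6 : ℂ) • Φ 5 - (4 * τ : ℂ) • Φ 3 - (2 * t : ℂ) • Φ 1 -
      SchwartzMap.derivCLM ℂ ℂ φ := by
    ext x
    simp only [sub_apply, smul_apply, smul_eq_mul,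
      SchwartzMap.derivCLM_apply, hΦ, HasCompactSupport.toSchwartzMap_toFun]
    rw [h x]; ring
  have hD : T F 0 (SchwartzMap.derivCLM ℂ ℂ φ) =
      6 * T F 5 φ - 4 * τ * T F 3 φ - 2 * t * T F 1 φ := by
    have e1 : T F 0 (SchwartzMap.derivCLM ℂ ℂ φ) =
        ∫ ξ : ℝ, (6 * (F 5 (2 * π * ξ) * (𝓕 φ) ξ) - 4 * τ * (F 3 (2 * π * ξ) * (𝓕 φ) ξ) -
          2 * t * (F 1 (2 * π * ξ) * (𝓕 φ) ξ)) := by
      unfold T
      congr 1
      ext ξ
      have e2 : (𝓕 (SchwartzMap.derivCLM ℂ ℂ φ)) ξ = (2 * π * I * ξ) * (𝓕 φ) ξ := by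
        rw [SchwartzMap.fourier_coe]
        have e3 : ((SchwartzMap.derivCLM ℂ ℂ φ : 𝓢(ℝ, ℂ)) : ℝ → ℂ) = deriv φ := by
          ext x; exact SchwartzMap.derivCLM_apply ℂ φ x
        rw [e3, Real.fourier_deriv φ.integrable φ.differentiable (by
          rw [← e3]; exact (SchwartzMap.derivCLM ℂ ℂ φ).integrable)]
        rfl
      rw [e2]
      have e4 := hF.ode (2 * π * ξ)
      push_cast at e4
      linear_combination -(𝓕 φ) ξ * e4
    rw [e1]
    have i5 := (hF.int_mul 5 (𝓕 φ).integrable).const_mul 6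
    have i3 := (hF.int_mul 3 (𝓕 φ).integrable).const_mul (4 * τ)
    have i1 := (hF.int_mul 1 (𝓕 φ).integrable).const_mul (2 * t)
    have i53 : Integrable (fun x : ℝ => 6 * (F 5 (2 * π * x) * (𝓕 φ) x) -
        4 * τ * (F 3 (2 * π * x) * (𝓕 φ) x)) := i5.sub i3
    rw [integral_sub i53 i1, integral_sub i5 i3, integral_const_mul, integral_const_mul,
      integral_const_mul]
    rfl
  rw [hψ, T_sub hF, T_sub hF, T_sub hF, T_smul, T_smul, T_smul, hT, hT, hT, hD]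
  ring

end Pool.Agent.V1184.Freud
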