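import Mathlib
import Pool.Agent.V1184.FreudFourier

/-! The sextic Freud weight. -/

open Filter Topology MeasureTheory Real
open scoped ContDiff

namespace Pool.Agent.V1184.Freud

/-- The weight `exp(-x^6+τ x^4+t x^2)`. -/
noncomputable def ww (τ t : ℝ) (x : ℝ) : ℝ := Real.exp (-x ^ 6 + τ * x ^ 4 + t * x ^ 2)

lemma ww_pos (τ t x : ℝ) : 0 < ww τ t x := Real.exp_pos _

lemma ww_even (τ t x : ℝ) : ww τ t (-x) = ww τ t x := by
  unfold ww; congr 1; ring

lemma ww_deriv (τ t x : ℝ) :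
    HasDerivAt (ww τ t) (-(6 * x ^ 5 - 4 * τ * x ^ 3 - 2 * t * x) * ww τ t x) x := by
  have h1 : HasDerivAt (fun x : ℝ => -x ^ 6 + τ * x ^ 4 + t * x ^ 2)
      (-(6 * x ^ 5) + τ * (4 * x ^ 3) + t * (2 * x)) x := by
    have := (((hasDerivAt_pow 6 x).neg.add ((hasDerivAt_pow 4 x).const_mul τ)).add
      ((hasDerivAt_pow 2 x).const_mul t))
    refine HasDerivAt.congr_deriv this ?_
    norm_num
  refine HasDerivAt.congr_deriv h1.exp ?_
  unfold ww
  ring

lemma ww_contDiff (τ t : ℝ) : ContDiff ℝ ∞ (ww τ t) := by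
  unfold ww
  fun_prop

lemma ww_le (τ t : ℝ) : ∃ C : ℝ, 0 < C ∧ ∀ x, ww τ t x ≤ C * Real.exp (-1 * x ^ 2) := by
  set A : ℝ := |τ| + |t| + 2 with hA
  have hτ := abs_nonneg τ
  have ht := abs_nonneg t
  refine ⟨Real.exp (2 * A ^ 3), Real.exp_pos _, fun x => ?_⟩
  unfold ww
  rw [← Real.exp_add]
  apply Real.exp_le_exp.2
  set y : ℝ := x ^ 2 with hy
  have hy0 : 0 ≤ y := sq_nonneg x
  have e1 : -x ^ 6 + τ * x ^ 4 + t * x ^ 2 = -y ^ 3 + τ * y ^ 2 + t * y := by rw [hy]; ring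
  rw [e1]
  have h1 : τ * y ^ 2 ≤ |τ| * y ^ 2 := by
    have := le_abs_self τ
    gcongr
  have h2 : t * y ≤ |t| * y := by
    have := le_abs_self t
    gcongr
  rcases le_total A y with h | h
  · have h3 : A * y ^ 2 ≤ y ^ 3 := by
      have : y ^ 3 = y * y ^ 2 := by ring
      rw [this]; gcongr
    have h4 : y ≤ y ^ 2 := by nlinarith
    have h5 : |t| * y ≤ |t| * y ^ 2 := by gcongr
    have h6 : 0 ≤ 2 * A ^ 3 := by positivity
    have h7 : A * y ^ 2 = |τ| * y ^ 2 + |t| * y ^ 2 + 2 * y ^ 2 := by rw [hA]; ring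
    nlinarith
  · have h3 : y ^ 2 ≤ A ^ 2 := by gcongr
    have h4 : |τ| * y ^ 2 ≤ A * A ^ 2 := by
      have : |τ| ≤ A := by linarith
      gcongr
    have h5 : (|t| + 1) * y ≤ A * A := by
      have : |t| + 1 ≤ A := by linarith
      gcongr
    have h6 : A * A ≤ A ^ 3 := by
      have : A ^ 3 = A * (A * A) := by ring
      rw [this]
      have : 1 ≤ A := by linarith
      nlinarith [mul_nonneg (by linarith : 0 ≤ A) (by linarith : 0 ≤ A)]
    have h7 : 0 ≤ y ^ 3 := by positivity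
    nlinarith

lemma ww_int (τ t : ℝ) (k : ℕ) : Integrable fun x : ℝ => x ^ k * ww τ t x := by
  obtain ⟨C, hC, h⟩ := ww_le τ t
  have h1 : Integrable fun x : ℝ => C * (x ^ (k : ℝ) * Real.exp (-1 * x ^ 2)) :=
    (integrable_rpow_mul_exp_neg_mul_sq (by norm_num) (by
      have : (0 : ℝ) ≤ k := Nat.cast_nonneg k
      linarith)).const_mul C
  refine h1.mono ?_ (Eventually.of_forall fun x => ?_)
  · have : Continuous fun x : ℝ => x ^ k * ww τ t x :=
      (continuous_id.pow k).mul (ww_contDiff τ t).continuous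
    exact this.aestronglyMeasurable
  · rw [Real.rpow_natCast, norm_mul, norm_mul, norm_mul, Real.norm_of_nonneg (ww_pos τ t x).le,
      Real.norm_of_nonneg hC.le, Real.norm_of_nonneg (Real.exp_pos _).le]
    have := h x
    have h0 := norm_nonneg (x ^ k)
    calc ‖x ^ k‖ * ww τ t x ≤ ‖x ^ k‖ * (C * Real.exp (-1 * x ^ 2)) := by gcongr
      _ = C * (‖x ^ k‖ * Real.exp (-1 * x ^ 2)) := by ring

/-- The moments. -/
noncomputable def mu (τ t : ℝ) (k : ℕ) : ℝ := ∫ x : ℝ, x ^ k * ww τ t x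

lemma mu_even_pos (τ t : ℝ) (k : ℕ) : 0 < mu τ t (2 * k) := by
  unfold mu
  have hc : Continuous fun x : ℝ => x ^ (2 * k) * ww τ t x :=
    (continuous_id.pow _).mul (ww_contDiff τ t).continuous
  refine integral_pos_of_integrable_nonneg_nonzero (x := 1) hc (ww_int τ t _) ?_ ?_
  · intro x
    have : 0 ≤ x ^ (2 * k) := by rw [pow_mul]; positivity
    exact mul_nonneg this (ww_pos τ t x).le
  · simp [(ww_pos τ t 1).ne']

end Pool.Agent.V1184.Freud
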