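import Mathlib
import Pool.Agent.V1184.FreudAlgebra
import Pool.Agent.V1184.FreudWeight

/-! Existence: the recurrence coefficients of the sextic Freud weight solve the string equation. -/

open Polynomial MeasureTheory

namespace Pool.Agent.V1184.Freud

/-- LHS of the string equation -/
noncomputable def Slhs (τ t : ℝ) (b : ℕ → ℝ) (n : ℕ) : ℝ :=
  6 * b n * (b (n - 2) * b (n - 1) + b (n - 1) ^ 2 + 2 * b (n - 1) * b n +
      b (n - 1) * b (n + 1) + b n ^ 2 + 2 * b n * b (n + 1) + b (n + 1) ^ 2 +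
      b (n + 1) * b (n + 2)) - 4 * τ * b n * (b (n - 1) + b n + b (n + 1)) - 2 * t * b n

lemma V'_elem_gen (τ t : ℝ) {b : ℕ → ℝ} (hb0 : b 0 = 0) (j : ℕ) :
    aeval (J b) (V' τ t) (e (j + 1)) j = Slhs τ t b (j + 1) := by
  have h5 := al5 hb0 j
  have h3 := al3 hb0 j
  have h1 := al1 (b := b) j
  unfold al at h5 h3 h1
  have e1 : aeval (J b) (V' τ t) (e (j + 1)) j = 6 * (J b ^ 5) (e (j + 1)) j -
      4 * τ * (J b ^ 3) (e (j + 1)) j - 2 * t * (J b ^ 1) (e (j + 1)) j := by
    unfold V'
    simp [Module.algebraMap_end_eq_smul_id]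
    ring
  unfold Slhs
  rw [e1, h5, h3, h1]
  simp only [Nat.add_sub_cancel, show j + 1 - 2 = j - 1 by omega, show j + 1 + 1 = j + 2 by omega,
    show j + 1 + 2 = j + 3 by omega]
  ring

lemma Lam_PP_gen (τ t : ℝ) {b : ℕ → ℝ} (hb0 : b 0 = 0) (j : ℕ) :
    Lam τ t b (P b (j + 1) * P b j) = hh b j * (Slhs τ t b (j + 1) - (j + 1 : ℕ)) := by
  unfold Lam
  have e1 : L b (V' τ t * (P b (j + 1) * P b j)) = hh b j * Slhs τ t b (j + 1) := by
    rw [← mul_assoc, L_mul hb0, vec_P hb0, B_e_right]
    congr 1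
    have : vec b (V' τ t * P b (j + 1)) = aeval (J b) (V' τ t) (e (j + 1)) := by
      rw [← vec_P hb0 (j + 1)]
      unfold vec
      rw [map_mul, Module.End.mul_apply]
    rw [this]
    exact V'_elem_gen τ t hb0 j
  have e2 : L b (derivative (P b (j + 1)) * P b j) = hh b j * (j + 1 : ℕ) := by
    rw [L_mul hb0, vec_P hb0, B_e_right]
    congr 1
    rw [vec_apply_le hb0]
    · rw [coeff_derivative, (P_natDegree b (j + 1)).2]
      push_cast; ring
    · have := natDegree_derivative_le (P b (j + 1))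
      rw [(P_natDegree b (j + 1)).1] at this
      simpa using this
  have e3 : L b (P b (j + 1) * derivative (P b j)) = 0 := by
    rw [L_mul hb0, vec_P hb0, B_e, vec_apply_lt hb0, mul_zero]
    have := natDegree_derivative_le (P b j)
    rw [(P_natDegree b j).1] at this
    omega
  rw [derivative_mul, map_add, e1, e2, e3]
  ring

lemma poly_int (τ t : ℝ) (p : ℝ[X]) : Integrable fun x : ℝ => p.eval x * ww τ t x := by
  induction p using Polynomial.induction_on' with
  | add p q hp hq =>
    refine (hp.add hq).congr (Filter.Eventually.of_forall fun x => ?_)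
    simp only [Pi.add_apply, eval_add]; ring
  | monomial n a =>
    refine ((ww_int τ t n).const_mul a).congr (Filter.Eventually.of_forall fun x => ?_)
    simp only [eval_monomial]; ring

/-- The normalized functional of the weight. -/
noncomputable def Lm (τ t : ℝ) : ℝ[X] →ₗ[ℝ] ℝ where
  toFun p := (∫ x : ℝ, p.eval x * ww τ t x) / mu τ t 0
  map_add' p q := by
    rw [← add_div, ← integral_add (poly_int τ t p) (poly_int τ t q)]
    congr 2
    ext x
    rw [eval_add]; ring
  map_smul' a p := by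
    rw [RingHom.id_apply, smul_eq_mul, ← mul_div_assoc, ← integral_const_mul]
    congr 2
    ext x
    rw [eval_smul, smul_eq_mul]; ring

lemma Lm_def (τ t : ℝ) (p : ℝ[X]) : Lm τ t p = (∫ x : ℝ, p.eval x * ww τ t x) / mu τ t 0 := rfl

lemma mu0_pos (τ t : ℝ) : 0 < mu τ t 0 := mu_even_pos τ t 0

lemma Lm_pow (τ t : ℝ) (k : ℕ) : Lm τ t (X ^ k) = mu τ t k / mu τ t 0 := by
  rw [Lm_def]
  congr 1
  unfold mu
  simp [eval_pow, eval_X]

lemma Lm_one (τ t : ℝ) : Lm τ t 1 = 1 := by
  have := Lm_pow τ t 0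
  rw [pow_zero, div_self (mu0_pos τ t).ne'] at this
  exact this

lemma mu_odd (τ t : ℝ) (k : ℕ) (h : k % 2 = 1) : mu τ t k = 0 := by
  have h1 : mu τ t k = -mu τ t k := by
    conv_lhs => rw [mu, ← integral_neg_eq_self]
    rw [mu, ← integral_neg]
    congr 1
    ext x
    have hk : Odd k := Nat.odd_iff.2 h
    rw [ww_even, hk.neg_pow]; ring
  linarith

lemma Lm_sum (τ t : ℝ) (p : ℝ[X]) :
    Lm τ t p = ∑ i ∈ Finset.range (p.natDegree + 1), p.coeff i * Lm τ t (X ^ i) := by
  conv_lhs => rw [p.as_sum_range_C_mul_X_pow]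
  rw [map_sum]
  apply Finset.sum_congr rfl
  intro i _
  rw [← smul_eq_C_mul, map_smul, smul_eq_mul]

lemma Lm_par (τ t : ℝ) (p : ℝ[X]) (hp : Par p 1) : Lm τ t p = 0 := by
  rw [Lm_sum]
  apply Finset.sum_eq_zero
  intro i _
  rcases Nat.mod_two_eq_zero_or_one i with h | h
  · rw [hp i (by omega), zero_mul]
  · rw [Lm_pow, mu_odd τ t i h]; simp

lemma Lm_sq_pos (τ t : ℝ) (p : ℝ[X]) (hp : p ≠ 0) : 0 < Lm τ t (p * p) := by
  rw [Lm_def]
  apply div_pos _ (mu0_pos τ t)
  obtain ⟨x, hx⟩ : ∃ x : ℝ, p.eval x ≠ 0 := by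
    by_contra h
    exact hp (Polynomial.funext (fun x => by
      have := not_exists.1 h x
      rw [not_ne_iff] at this
      rw [this]; simp))
  refine integral_pos_of_integrable_nonneg_nonzero (x := x) ?_ (poly_int τ t (p * p)) ?_ ?_
  · exact (Polynomial.continuous _).mul (ww_contDiff τ t).continuous
  · intro y
    simp only [eval_mul, Pi.zero_apply]
    exact mul_nonneg (mul_self_nonneg _) (ww_pos τ t y).le
  · rw [eval_mul]
    exact mul_ne_zero (mul_ne_zero hx hx) (ww_pos τ t x).ne'

lemma Lm_pearson (τ t : ℝ) (p : ℝ[X]) : Lm τ t (V' τ t * p) - Lm τ t (derivative p) = 0 := by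
  rw [← map_sub, Lm_def]
  have h : ∫ x : ℝ, (V' τ t * p - derivative p).eval x * ww τ t x = 0 := by
    have h1 : ∀ x : ℝ, HasDerivAt (fun x => -(p.eval x * ww τ t x))
        ((V' τ t * p - derivative p).eval x * ww τ t x) x := by
      intro x
      have := ((p.hasDerivAt x).mul (ww_deriv τ t x)).neg
      refine HasDerivAt.congr_deriv this ?_
      simp only [V', eval_sub, eval_mul, eval_C, eval_pow, eval_X]
      ring
    exact integral_eq_zero_of_hasDerivAt_of_integrable h1 (poly_int τ t _) (poly_int τ t p).neg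
  rw [h, zero_div]

/-- pairs of consecutive orthogonal polynomials -/
noncomputable def Qp (τ t : ℝ) : ℕ → ℝ[X] × ℝ[X]
  | 0 => (1, X)
  | n + 1 => ((Qp τ t n).2, X * (Qp τ t n).2 -
      C (Lm τ t ((Qp τ t n).2 * (Qp τ t n).2) / Lm τ t ((Qp τ t n).1 * (Qp τ t n).1)) *
        (Qp τ t n).1)

/-- The recurrence coefficients. -/
noncomputable def beta (τ t : ℝ) : ℕ → ℝ
  | 0 => 0
  | n + 1 => Lm τ t ((Qp τ t n).2 * (Qp τ t n).2) / Lm τ t ((Qp τ t n).1 * (Qp τ t n).1)

lemma P_eq_Qp (τ t : ℝ) (n : ℕ) : P (beta τ t) n = (Qp τ t n).1 ∧ P (beta τ t) (n + 1) = (Qp τ t n).2 := by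
  induction n with
  | zero => exact ⟨rfl, rfl⟩
  | succ n ih =>
    refine ⟨ih.2, ?_⟩
    rw [P, ih.1, ih.2, beta, Qp]

lemma beta_succ (τ t : ℝ) (n : ℕ) : beta τ t (n + 1) =
    Lm τ t (P (beta τ t) (n + 1) * P (beta τ t) (n + 1)) /
      Lm τ t (P (beta τ t) n * P (beta τ t) n) := by
  rw [(P_eq_Qp τ t n).1, (P_eq_Qp τ t n).2, beta]

lemma P_ne (b : ℕ → ℝ) (n : ℕ) : P b n ≠ 0 := by
  intro h
  have := (P_natDegree b n).2
  rw [h] at this
  simp at this

lemma beta_pos (τ t : ℝ) (n : ℕ) (hn : 1 ≤ n) : 0 < beta τ t n := by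
  obtain ⟨n, rfl⟩ : ∃ k, n = k + 1 := ⟨n - 1, by omega⟩
  rw [beta_succ]
  exact div_pos (Lm_sq_pos τ t _ (P_ne _ _)) (Lm_sq_pos τ t _ (P_ne _ _))

lemma X_P {b : ℕ → ℝ} (hb0 : b 0 = 0) (i : ℕ) : X * P b i = P b (i + 1) + C (b i) * P b (i - 1) := by
  match i with
  | 0 => simp [P, hb0]
  | i + 1 => rw [Nat.add_sub_cancel, P]; ring

lemma Lm_C_mul (τ t a : ℝ) (p : ℝ[X]) : Lm τ t (C a * p) = a * Lm τ t p := by
  rw [← smul_eq_C_mul, map_smul, smul_eq_mul]

lemma orth (τ t : ℝ) (j : ℕ) : ∀ i < j, Lm τ t (P (beta τ t) j * P (beta τ t) i) = 0 := by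
  induction j using Nat.strong_induction_on with
  | _ j ih =>
    match j with
    | 0 => intro i hi; omega
    | 1 =>
      intro i hi
      have : i = 0 := by omega
      subst this
      have h := Lm_pow τ t 1
      rw [pow_one, mu_odd τ t 1 (by norm_num), zero_div] at h
      simpa [P] using h
    | n + 2 =>
      intro i hi
      set b := beta τ t with hb
      have hb0 : b 0 = 0 := rfl
      have e1 : P b (n + 2) * P b i = P b (n + 1) * (X * P b i) - C (b (n + 1)) * (P b n * P b i) := by
        rw [P]; ring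
      rw [e1, map_sub, Lm_C_mul]
      rcases Nat.lt_or_ge n i with h | h
      · have hi' : i = n + 1 := by omega
        subst hi'
        have h1 : Lm τ t (P b n * P b (n + 1)) = 0 := by
          rw [mul_comm]; exact ih (n + 1) (by omega) n (by omega)
        rw [h1, mul_zero, sub_zero]
        apply Lm_par
        have hX : Par (X : ℝ[X]) 1 := by
          intro k hk
          have : ¬ (1 = k) := by omega
          simp [coeff_X, this]
        have := (P_par b (n + 1)).mul (hX.mul (P_par b (n + 1)))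
        intro k hk
        exact this k (by omega)
      · rw [X_P hb0, mul_add, map_add]
        have e2 : P b (n + 1) * (C (b i) * P b (i - 1)) = C (b i) * (P b (n + 1) * P b (i - 1)) := by
          ring
        rw [e2, Lm_C_mul]
        have h2 : Lm τ t (P b (n + 1) * P b (i - 1)) = 0 := ih (n + 1) (by omega) _ (by omega)
        rw [h2, mul_zero, add_zero]
        rcases Nat.lt_or_ge i n with h3 | h3
        · rw [ih (n + 1) (by omega) (i + 1) (by omega), ih n (by omega) i h3]; ring
        · have hi' : i = n := by omega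
          subst hi'
          have := beta_succ τ t i
          rw [← hb] at this
          rw [this]
          have h4 := (Lm_sq_pos τ t _ (P_ne b i)).ne'
          field_simp
          ring

lemma L_eq_Lm (τ t : ℝ) (p : ℝ[X]) : L (beta τ t) p = Lm τ t p := by
  have hb0 : beta τ t 0 = 0 := rfl
  have key : ∀ n : ℕ, ∀ p : ℝ[X], p.degree < n → L (beta τ t) p = Lm τ t p := by
    intro n
    induction n with
    | zero =>
      intro p hp
      have : p = 0 := by
        rw [← degree_eq_bot]
        by_contra h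
        rw [degree_eq_natDegree (by intro h'; exact h (degree_eq_bot.2 h'))] at hp
        have := Nat.cast_lt.1 hp
        omega
      rw [this, map_zero, map_zero]
    | succ n ih =>
      intro p hp
      have h1 : L (beta τ t) (P (beta τ t) n) = Lm τ t (P (beta τ t) n) := by
        have e1 : L (beta τ t) (P (beta τ t) n) = vec (beta τ t) (P (beta τ t) n) 0 := rfl
        rw [e1, vec_P hb0]
        rcases Nat.eq_zero_or_pos n with h | h
        · subst h
          rw [P, Lm_one]; simp [e]
        · have h2 := orth τ t n 0 h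
          rw [show P (beta τ t) 0 = 1 from rfl, mul_one] at h2
          rw [h2]
          simp [e, h.ne']
      set q := p - C (p.coeff n) * P (beta τ t) n with hq
      have hqd : q.degree < n := by
        rw [degree_lt_iff_coeff_zero]
        intro m hm
        rw [hq, coeff_sub, coeff_C_mul]
        rcases Nat.eq_or_lt_of_le hm with h | h
        · rw [← h, (P_natDegree _ n).2]; ring
        · have f1 : p.coeff m = 0 :=
            coeff_eq_zero_of_degree_lt (lt_of_lt_of_le hp (by exact_mod_cast h))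
          have f2 : (P (beta τ t) n).coeff m = 0 :=
            coeff_eq_zero_of_natDegree_lt (by rw [(P_natDegree _ n).1]; exact h)
          rw [f1, f2]
          ring
      have e2 : p = q + p.coeff n • P (beta τ t) n := by rw [hq, smul_eq_C_mul]; ring
      rw [e2, map_add, map_add, map_smul, map_smul, ih q hqd, h1]
  exact key (p.natDegree + 1) p (lt_of_le_of_lt degree_le_natDegree (by
    exact_mod_cast Nat.lt_succ_self _))

theorem beta_string (τ t : ℝ) : IsString τ t (beta τ t) := by
  intro n hn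
  obtain ⟨j, rfl⟩ : ∃ k, n = k + 1 := ⟨n - 1, by omega⟩
  have hb0 : beta τ t 0 = 0 := rfl
  have h1 := Lam_PP_gen τ t hb0 j
  have h2 : Lam τ t (beta τ t) (P (beta τ t) (j + 1) * P (beta τ t) j) = 0 := by
    unfold Lam
    rw [L_eq_Lm, L_eq_Lm]
    exact Lm_pearson τ t _
  rw [h2] at h1
  have h3 : 0 < hh (beta τ t) j := hh_pos (beta_pos τ t) j
  have h4 : Slhs τ t (beta τ t) (j + 1) - (j + 1 : ℕ) = 0 := by
    rcases mul_eq_zero.1 h1.symm with h | h
    · exact absurd h h3.ne'
    · exact h
  have h5 : Slhs τ t (beta τ t) (j + 1) = (j + 1 : ℕ) := by linarith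
  exact h5

/-- Two solutions of the string equation with `b_0=0`, positive, and the same `b_1,b_2` agree. -/
lemma string_det {τ t : ℝ} {b c : ℕ → ℝ} (hb0 : b 0 = 0) (hc0 : c 0 = 0)
    (hb : ∀ n, 1 ≤ n → 0 < b n) (hE : IsString τ t b) (hE' : IsString τ t c)
    (h1 : b 1 = c 1) (h2 : b 2 = c 2) : b = c := by
  funext n
  induction n using Nat.strong_induction_on with
  | _ n ih =>
    match n with
    | 0 => rw [hb0, hc0]
    | 1 => exact h1
    | 2 => exact h2
    | n + 3 =>
      have e1 := hE (n + 1) (by omega)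
      have e2 := hE' (n + 1) (by omega)
      rw [← ih (n + 1 - 2) (by omega), ← ih (n + 1 - 1) (by omega), ← ih (n + 1) (by omega),
        ← ih (n + 1 + 1) (by omega)] at e2
      have p1 := hb (n + 1) (by omega)
      have p2 := hb (n + 1 + 1) (by omega)
      have e3 : (6 * b (n + 1) * b (n + 1 + 1)) * (b (n + 1 + 2) - c (n + 1 + 2)) = 0 := by
        linear_combination e1 - e2
      have p3 : 6 * b (n + 1) * b (n + 1 + 1) ≠ 0 := by positivity
      have := (mul_eq_zero.1 e3).resolve_left p3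
      change b (n + 1 + 2) = c (n + 1 + 2)
      linarith

end Pool.Agent.V1184.Freud
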