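import Mathlib
import Pool.Agent.V1184.FreudWeight

/-! The functional is integration against the weight. -/

open Filter Topology MeasureTheory Complex FourierTransform Real
open scoped SchwartzMap ContDiff

namespace Pool.Agent.V1184.Freud

variable {τ t : ℝ} {F : ℕ → ℝ → ℂ}

lemma cww_contDiff (τ t : ℝ) : ContDiff ℝ ∞ fun x : ℝ => (ww τ t x : ℂ) :=
  Complex.ofRealCLM.contDiff.comp (ww_contDiff τ t)

lemma cww_ne (τ t x : ℝ) : (ww τ t x : ℂ) ≠ 0 := by
  exact_mod_cast (ww_pos τ t x).ne'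

lemma cww_deriv (τ t x : ℝ) :
    HasDerivAt (fun x : ℝ => (ww τ t x : ℂ))
      (-(6 * x ^ 5 - 4 * τ * x ^ 3 - 2 * t * x) * ww τ t x) x := by
  have := (ww_deriv τ t x).ofReal_comp
  refine HasDerivAt.congr_deriv this ?_
  push_cast
  ring

lemma kill (hF : Fam τ t F) (η : 𝓢(ℝ, ℂ)) (hη : HasCompactSupport η)
    (h0 : ∫ x : ℝ, η x * ww τ t x = 0) : T F 0 η = 0 := by
  -- a support radius
  obtain ⟨R, hR⟩ : ∃ R : ℝ, ∀ x, R ≤ |x| → η x = 0 := by
    obtain ⟨R, hR⟩ := hη.isCompact.isBounded.subset_closedBall (0 : ℝ)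
    refine ⟨R + 1, fun x hx => ?_⟩
    by_contra h
    have h1 : x ∈ tsupport η := subset_tsupport _ h
    have h2 := hR h1
    rw [Metric.mem_closedBall, dist_zero_right, Real.norm_eq_abs] at h2
    linarith
  set g : ℝ → ℂ := fun x => η x * ww τ t x with hg
  have gc : ContDiff ℝ ∞ g := (η.smooth ⊤).mul (cww_contDiff τ t)
  have gcont : Continuous g := gc.continuous
  have g0 : ∀ x, R ≤ |x| → g x = 0 := fun x hx => by rw [hg]; simp [hR x hx]
  have gcs : HasCompactSupport g := hη.mul_right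
  set G : ℝ → ℂ := fun x => ∫ y in (-R)..x, g y with hG
  have Gd : ∀ x, HasDerivAt G (g x) x := fun x =>
    intervalIntegral.integral_hasDerivAt_right (gcont.intervalIntegrable _ _)
      (gcont.stronglyMeasurableAtFilter _ _) gcont.continuousAt
  have Gs : ContDiff ℝ ∞ G := by
    rw [contDiff_infty_iff_deriv]
    refine ⟨fun x => (Gd x).differentiableAt, ?_⟩
    have : deriv G = g := by ext x; exact (Gd x).deriv
    rw [this]; exact gc
  have Gl : ∀ x, x ≤ -R → G x = 0 := by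
    intro x hx
    rw [hG]
    simp only
    rw [intervalIntegral.integral_zero_ae]
    refine Eventually.of_forall fun y hy => ?_
    rw [Set.uIoc_of_ge hx] at hy
    apply g0
    rcases le_or_gt 0 R with hR0 | hR0
    · rw [abs_of_nonpos (by linarith [hy.2])]
      linarith [hy.2]
    · exact hR0.le.trans (abs_nonneg _)
  have Gr : ∀ x, R < x → G x = 0 := by
    intro x hx
    by_cases hR0 : 0 ≤ R
    · have h1 : G x = ∫ y, g y := by
        rw [hG]
        simp only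
        rw [intervalIntegral.integral_of_le (by linarith)]
        apply setIntegral_eq_integral_of_forall_compl_eq_zero
        intro y hy
        apply g0
        simp only [Set.mem_Ioc, not_and_or, not_lt, not_le] at hy
        rcases hy with hy | hy
        · rw [abs_of_nonpos (by linarith)]; linarith
        · rw [abs_of_nonneg (by linarith)]; linarith
      rw [h1]; exact h0
    · have : ∀ y, g y = 0 := fun y => g0 y ((not_le.1 hR0).le.trans (abs_nonneg _))
      rw [hG]; simp [this]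
  have Gc : HasCompactSupport G := by
    apply HasCompactSupport.intro (isCompact_Icc (a := -R) (b := R))
    intro x hx
    rw [Set.mem_Icc, not_and_or, not_le, not_le] at hx
    rcases hx with hx | hx
    · exact Gl x hx.le
    · exact Gr x hx
  set ψ : ℝ → ℂ := fun x => -((ww τ t x : ℂ)⁻¹ * G x) with hψ
  have ψc : HasCompactSupport ψ := by
    have : HasCompactSupport fun x : ℝ => (ww τ t x : ℂ)⁻¹ * G x := Gc.mul_left
    exact this.neg
  have ψs : ContDiff ℝ ∞ ψ := by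
    have h1 : ContDiff ℝ ∞ fun x : ℝ => (ww τ t x : ℂ)⁻¹ :=
      (cww_contDiff τ t).inv (fun x => cww_ne τ t x)
    exact (h1.mul Gs).neg
  have ψd : ∀ x : ℝ, deriv ψ x = (6 * x ^ 5 - 4 * τ * x ^ 3 - 2 * t * x) * ψ x - η x := by
    intro x
    have h1 := (((cww_deriv τ t x).inv (cww_ne τ t x)).mul (Gd x)).neg
    have h2 : deriv ψ x = _ := h1.deriv
    rw [h2, hψ]
    have h3 := cww_ne τ t x
    simp only [hg, Pi.inv_apply]
    field_simp
    ring
  refine T_deriv hF (ψc.toSchwartzMap ψs) η ψc (fun x => ?_)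
  have e1 : (⇑(ψc.toSchwartzMap ψs) : ℝ → ℂ) = ψ := rfl
  rw [e1, ψd x]
  ring

/-- a bump -/
noncomputable def bmp : ContDiffBump (0 : ℝ) := ⟨1, 2, by norm_num, by norm_num⟩

lemma bmp_s : ContDiff ℝ ∞ fun x : ℝ => (bmp x : ℂ) := Complex.ofRealCLM.contDiff.comp bmp.contDiff

lemma bmp_c : HasCompactSupport fun x : ℝ => (bmp x : ℂ) := by
  have := bmp.hasCompactSupport
  exact this.comp_left (g := fun y : ℝ => (y : ℂ)) (by simp)

lemma bmp_zero : bmp (0 : ℝ) = 1 := bmp.one_of_mem_closedBall (by simp [bmp])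

lemma exists_const (hF : Fam τ t F) : ∃ c : ℂ, ∀ η : 𝓢(ℝ, ℂ), HasCompactSupport η →
    T F 0 η = c * ∫ x : ℝ, η x * ww τ t x := by
  set η₀ : 𝓢(ℝ, ℂ) := bmp_c.toSchwartzMap bmp_s with hη₀
  have c0 : HasCompactSupport η₀ := bmp_c
  have hI : ∀ η : 𝓢(ℝ, ℂ), HasCompactSupport η → Integrable fun x : ℝ => η x * ww τ t x := by
    intro η hη
    have h1 : Continuous fun x : ℝ => η x * ww τ t x :=
      η.continuous.mul (cww_contDiff τ t).continuous
    exact h1.integrable_of_hasCompactSupport hη.mul_right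
  have hne : ∫ x : ℝ, η₀ x * ww τ t x ≠ 0 := by
    have h1 : ∫ x : ℝ, η₀ x * ww τ t x = ((∫ x : ℝ, bmp x * ww τ t x : ℝ) : ℂ) := by
      rw [← integral_complex_ofReal]
      congr 1
      ext x
      push_cast
      rfl
    rw [h1]
    have h2 : 0 < ∫ x : ℝ, bmp x * ww τ t x := by
      refine Continuous.integral_pos_of_hasCompactSupport_nonneg_nonzero (x := 0) ?_ ?_ ?_ ?_
      · exact bmp.continuous.mul (ww_contDiff τ t).continuous
      · exact bmp.hasCompactSupport.mul_right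
      · intro x
        exact mul_nonneg bmp.nonneg (ww_pos τ t x).le
      · rw [bmp_zero, one_mul]; exact (ww_pos τ t 0).ne'
    exact_mod_cast h2.ne'
  refine ⟨T F 0 η₀ / ∫ x : ℝ, η₀ x * ww τ t x, fun η hη => ?_⟩
  set a : ℂ := (∫ x : ℝ, η x * ww τ t x) / ∫ x : ℝ, η₀ x * ww τ t x with ha
  have h1 : T F 0 (η - a • η₀) = 0 := by
    apply kill hF
    · have e1 : (⇑(η - a • η₀) : ℝ → ℂ) = fun x => η x - a * η₀ x := by ext x; simp
      rw [e1]
      exact hη.sub (c0.mul_left (f := fun _ => a))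
    · have e1 : ∀ x : ℝ, (η - a • η₀) x * ww τ t x = η x * ww τ t x - a * (η₀ x * ww τ t x) := by
        intro x
        simp
        ring
      simp_rw [e1]
      rw [integral_sub (hI η hη) ((hI η₀ c0).const_mul a), integral_const_mul, ha]
      field_simp
      ring
  rw [T_sub hF, T_smul] at h1
  have h2 : T F 0 η = a * T F 0 η₀ := by linear_combination h1
  rw [h2, ha]
  field_simp

lemma bmp_far (x : ℝ) (hx : 2 ≤ |x|) : bmp x = 0 := by
  apply bmp.zero_of_le_dist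
  rw [dist_zero_right, Real.norm_eq_abs]
  exact hx

lemma scale_c (ε : ℝ) (hε : 0 < ε) : HasCompactSupport fun x : ℝ => (bmp (ε * x) : ℂ) := by
  apply HasCompactSupport.intro (isCompact_Icc (a := -(2 / ε)) (b := 2 / ε))
  intro x hx
  rw [bmp_far]
  · simp
  · rw [abs_mul, abs_of_pos hε]
    by_contra h
    rw [not_le] at h
    apply hx
    rw [Set.mem_Icc, ← abs_le, le_div_iff₀ hε]
    linarith

lemma scale_s (ε : ℝ) : ContDiff ℝ ∞ fun x : ℝ => (bmp (ε * x) : ℂ) :=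
  Complex.ofRealCLM.contDiff.comp (bmp.contDiff.comp (contDiff_const.mul contDiff_id))

/-- the rescaled bump -/
noncomputable def sb (ε : ℝ) (hε : 0 < ε) : 𝓢(ℝ, ℂ) := (scale_c ε hε).toSchwartzMap (scale_s ε)

/-- the bump -/
noncomputable def chi : 𝓢(ℝ, ℂ) := bmp_c.toSchwartzMap bmp_s

lemma sb_fourier (ε : ℝ) (hε : 0 < ε) (ξ : ℝ) : (𝓕 (sb ε hε)) ξ = (ε⁻¹ : ℂ) * (𝓕 chi) (ε⁻¹ * ξ) := by
  rw [SchwartzMap.fourier_coe, SchwartzMap.fourier_coe, Real.fourier_real_eq, Real.fourier_real_eq]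
  have h := MeasureTheory.Measure.integral_comp_mul_left
    (fun v : ℝ => Real.fourierChar (-(v * (ε⁻¹ * ξ))) • chi v) ε
  have e1 : (fun v : ℝ => Real.fourierChar (-(v * ξ)) • (sb ε hε) v) =
      fun v : ℝ => Real.fourierChar (-((ε * v) * (ε⁻¹ * ξ))) • chi (ε * v) := by
    ext v
    have : -(v * ξ) = -((ε * v) * (ε⁻¹ * ξ)) := by field_simp
    rw [this]
    rfl
  rw [e1, h, abs_of_pos (by positivity), Complex.real_smul, Complex.ofReal_inv]

lemma T_sb (k : ℕ) (ε : ℝ) (hε : 0 < ε) :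
    T F k (sb ε hε) = ∫ ξ : ℝ, F k (2 * π * (ε * ξ)) * (𝓕 chi) ξ := by
  unfold T
  have h := MeasureTheory.Measure.integral_comp_mul_left
    (fun ξ : ℝ => F k (2 * π * (ε * ξ)) * (𝓕 chi) ξ) ε⁻¹
  rw [inv_inv, abs_of_pos hε] at h
  have e1 : (fun ξ : ℝ => F k (2 * π * ξ) * (𝓕 (sb ε hε)) ξ) =
      fun ξ : ℝ => (ε⁻¹ : ℂ) * (F k (2 * π * (ε * (ε⁻¹ * ξ))) * (𝓕 chi) (ε⁻¹ * ξ)) := by
    ext ξ
    rw [sb_fourier]
    have : ε * (ε⁻¹ * ξ) = ξ := by field_simp
    rw [this]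
    ring
  rw [e1, integral_const_mul, h, Complex.real_smul]
  have : (ε : ℂ) ≠ 0 := by exact_mod_cast hε.ne'
  field_simp

lemma chi_inv : ∫ ξ : ℝ, (𝓕 chi) ξ = 1 := by
  have h : (𝓕⁻ (𝓕 chi)) = chi := FourierTransform.fourierInv_fourier_eq chi
  have h1 : (𝓕⁻ (𝓕 chi)) 0 = chi 0 := by rw [h]
  rw [SchwartzMap.fourierInv_coe, Real.fourierInv_eq] at h1
  have h2 : chi 0 = 1 := by
    have : chi 0 = (bmp 0 : ℂ) := rfl
    rw [this, bmp_zero]; simp
  rw [h2] at h1
  rw [← h1]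
  congr 1
  ext ξ
  simp

lemma moments (hF : Fam τ t F) : ∃ c : ℂ, ∀ k, F k 0 = c * mu τ t k := by
  obtain ⟨c, hc⟩ := exists_const hF
  refine ⟨c, fun k => ?_⟩
  have hpos : ∀ n : ℕ, (0 : ℝ) < 1 / ((n : ℝ) + 1) := fun n => by positivity
  have hto : Tendsto (fun n : ℕ => 1 / ((n : ℝ) + 1)) atTop (𝓝 0) :=
    tendsto_one_div_add_atTop_nhds_zero_nat
  have h1 : ContDiff ℝ ∞ fun x : ℝ => (x : ℂ) := Complex.ofRealCLM.contDiff
  have cc : ∀ n : ℕ, HasCompactSupport fun x : ℝ => (x : ℂ) ^ k * sb _ (hpos n) x :=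
    fun n => (scale_c _ (hpos n)).mul_left
  have ss : ∀ n : ℕ, ContDiff ℝ ∞ fun x : ℝ => (x : ℂ) ^ k * sb _ (hpos n) x :=
    fun n => (h1.pow k).mul (scale_s _)
  have key : ∀ n : ℕ, ∫ ξ : ℝ, F k (2 * π * (1 / ((n : ℝ) + 1) * ξ)) * (𝓕 chi) ξ =
      c * ∫ x : ℝ, (x : ℂ) ^ k * sb _ (hpos n) x * ww τ t x := by
    intro n
    have e1 := hc ((cc n).toSchwartzMap (ss n)) (cc n)
    have e2 := T_pow hF k 0 (sb _ (hpos n)) ((cc n).toSchwartzMap (ss n)) (scale_c _ (hpos n))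
      (fun x => rfl)
    rw [Nat.zero_add] at e2
    rw [← T_sb k _ (hpos n), ← e2, e1]
    rfl
  have lim1 : Tendsto (fun n : ℕ => ∫ ξ : ℝ, F k (2 * π * (1 / ((n : ℝ) + 1) * ξ)) * (𝓕 chi) ξ)
      atTop (𝓝 (∫ ξ : ℝ, F k 0 * (𝓕 chi) ξ)) := by
    obtain ⟨M, hM⟩ := hF.bdd k
    refine tendsto_integral_of_dominated_convergence (fun ξ => M * ‖(𝓕 chi) ξ‖) ?_ ?_ ?_ ?_
    · intro n
      have : Continuous fun ξ : ℝ => F k (2 * π * (1 / ((n : ℝ) + 1) * ξ)) * (𝓕 chi) ξ :=
        ((hF.cont k).comp (by fun_prop)).mul (𝓕 chi).continuous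
      exact this.aestronglyMeasurable
    · exact (𝓕 chi).integrable.norm.const_mul M
    · intro n
      refine Eventually.of_forall fun ξ => ?_
      rw [norm_mul]
      have := hM (2 * π * (1 / ((n : ℝ) + 1) * ξ))
      gcongr
    · refine Eventually.of_forall fun ξ => ?_
      refine Tendsto.mul ?_ tendsto_const_nhds
      have h2 : Tendsto (fun n : ℕ => 2 * π * (1 / ((n : ℝ) + 1) * ξ)) atTop (𝓝 (2 * π * (0 * ξ))) :=
        (hto.mul_const ξ).const_mul (2 * π)
      rw [zero_mul, mul_zero] at h2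
      exact ((hF.cont k).tendsto 0).comp h2
  rw [integral_const_mul, chi_inv, mul_one] at lim1
  have lim2 : Tendsto (fun n : ℕ => ∫ x : ℝ, (x : ℂ) ^ k * sb _ (hpos n) x * ww τ t x)
      atTop (𝓝 (∫ x : ℝ, ((x ^ k * ww τ t x : ℝ) : ℂ))) := by
    refine tendsto_integral_of_dominated_convergence (fun x => ‖x ^ k * ww τ t x‖) ?_ ?_ ?_ ?_
    · intro n
      have : Continuous fun x : ℝ => (x : ℂ) ^ k * sb _ (hpos n) x * ww τ t x :=
        (ss n).continuous.mul (cww_contDiff τ t).continuous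
      exact this.aestronglyMeasurable
    · exact (ww_int τ t k).norm
    · intro n
      refine Eventually.of_forall fun x => ?_
      have e1 : (sb _ (hpos n)) x = (bmp (1 / ((n : ℝ) + 1) * x) : ℂ) := rfl
      rw [norm_mul, norm_mul, e1, Complex.norm_real, norm_pow, Complex.norm_real, norm_mul,
        norm_pow]
      have h2 : ‖bmp (1 / ((n : ℝ) + 1) * x)‖ ≤ 1 := by
        rw [Real.norm_of_nonneg bmp.nonneg]; exact bmp.le_one
      have h3 : ‖(ww τ t x : ℂ)‖ = ‖ww τ t x‖ := Complex.norm_real _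
      rw [h3]
      calc ‖x‖ ^ k * ‖bmp (1 / ((n : ℝ) + 1) * x)‖ * ‖ww τ t x‖ ≤ ‖x‖ ^ k * 1 * ‖ww τ t x‖ := by
            gcongr
        _ = _ := by ring
    · refine Eventually.of_forall fun x => ?_
      have h2 : Tendsto (fun n : ℕ => 1 / ((n : ℝ) + 1) * x) atTop (𝓝 (0 * x)) :=
        hto.mul_const x
      rw [zero_mul] at h2
      have h3 : Tendsto (fun n : ℕ => (bmp (1 / ((n : ℝ) + 1) * x) : ℂ)) atTop (𝓝 ((bmp 0 : ℝ) : ℂ)) :=
        (Complex.continuous_ofReal.tendsto _).comp ((bmp.continuous.tendsto 0).comp h2)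
      rw [bmp_zero] at h3
      have h4 := ((tendsto_const_nhds (x := (x : ℂ) ^ k)).mul h3).mul
        (tendsto_const_nhds (x := (ww τ t x : ℂ)))
      have e2 : ((x ^ k * ww τ t x : ℝ) : ℂ) = (x : ℂ) ^ k * ((1 : ℝ) : ℂ) * (ww τ t x : ℂ) := by
        push_cast; ring
      rw [e2]
      exact h4
  rw [integral_complex_ofReal] at lim2
  have lim3 := lim2.const_mul c
  have lim1' := lim1.congr key
  exact tendsto_nhds_unique lim1' lim3

end Pool.Agent.V1184.Freud
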