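import Mathlib

/-! Growth of the moments. -/

open Filter Topology

namespace Pool.Agent.V1184.Freud

/-- The Pearson recurrence for a moment sequence. -/
def Rec (τ t : ℝ) (m : ℕ → ℝ) : Prop :=
  ∀ k : ℕ, 6 * m (k + 5) - 4 * τ * m (k + 3) - 2 * t * m (k + 1) = k * m (k - 1)

lemma growth {τ t : ℝ} {m : ℕ → ℝ} (h : Rec τ t m) :
    ∃ K C : ℝ, 0 < K ∧ 2 ≤ C ∧ ∀ n, m n ^ 2 ≤ K * C ^ n * n.factorial := by
  set C : ℝ := 2 + 2 * τ ^ 2 + t ^ 2 with hC
  set K : ℝ := 1 + ∑ i ∈ Finset.range 6, m i ^ 2 with hK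
  have hKpos : 0 < K := by
    have : 0 ≤ ∑ i ∈ Finset.range 6, m i ^ 2 := Finset.sum_nonneg fun i _ => sq_nonneg _
    linarith
  have hC2 : 2 ≤ C := by rw [hC]; nlinarith [sq_nonneg τ, sq_nonneg t]
  refine ⟨K, C, hKpos, hC2, ?_⟩
  intro n
  induction n using Nat.strong_induction_on with
  | _ n ih =>
    by_cases hn : n < 6
    · have h1 : m n ^ 2 ≤ K := by
        have : m n ^ 2 ≤ ∑ i ∈ Finset.range 6, m i ^ 2 :=
          Finset.single_le_sum (f := fun i => m i ^ 2) (fun i _ => sq_nonneg _)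
            (Finset.mem_range.2 hn)
        linarith
      have h2 : (1 : ℝ) ≤ C ^ n := one_le_pow₀ (by linarith)
      have h3 : (1 : ℝ) ≤ n.factorial := by exact_mod_cast Nat.one_le_iff_ne_zero.2 n.factorial_ne_zero
      calc m n ^ 2 ≤ K * 1 * 1 := by linarith
        _ ≤ K * C ^ n * n.factorial := by gcongr
    · obtain ⟨k, rfl⟩ : ∃ k, n = k + 6 := ⟨n - 6, by omega⟩
      have hr := h (k + 1)
      rw [show k + 1 + 5 = k + 6 by ring, show k + 1 + 3 = k + 4 by ring,
        show k + 1 + 1 = k + 2 by ring, Nat.add_sub_cancel] at hr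
      have h4 := ih (k + 4) (by omega)
      have h2 := ih (k + 2) (by omega)
      have h0 := ih k (by omega)
      set R : ℝ := ((k + 6).factorial : ℝ) with hR
      have hRpos : 0 < R := by rw [hR]; exact_mod_cast Nat.factorial_pos _
      have f4 : ((k + 4).factorial : ℝ) ≤ R := by
        rw [hR]; exact_mod_cast Nat.factorial_le (by omega)
      have f2 : ((k + 2).factorial : ℝ) ≤ R := by
        rw [hR]; exact_mod_cast Nat.factorial_le (by omega)
      have f0 : ((k : ℝ) + 1) ^ 2 * (k.factorial : ℝ) ≤ R := by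
        have e1 : (k + 1) ^ 2 * k.factorial ≤ (k + 6).factorial := by
          have e2 : (k + 2).factorial ≤ (k + 6).factorial := Nat.factorial_le (by omega)
          have e3 : (k + 2).factorial = (k + 2) * ((k + 1) * k.factorial) := by
            rw [Nat.factorial_succ, Nat.factorial_succ]
          have e4 : (k + 1) ^ 2 * k.factorial ≤ (k + 2).factorial := by
            rw [e3, sq, mul_assoc]
            exact Nat.mul_le_mul (by omega) le_rfl
          exact e4.trans e2
        rw [hR]; exact_mod_cast e1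
      have hCk : 0 < C ^ k := by positivity
      have g4 : m (k + 4) ^ 2 ≤ K * C ^ (k + 4) * R := h4.trans (by gcongr)
      have g2 : m (k + 2) ^ 2 ≤ K * C ^ (k + 2) * R := h2.trans (by gcongr)
      have g0 : ((k : ℝ) + 1) ^ 2 * m k ^ 2 ≤ K * C ^ k * R := by
        calc ((k : ℝ) + 1) ^ 2 * m k ^ 2 ≤ ((k : ℝ) + 1) ^ 2 * (K * C ^ k * k.factorial) := by
              gcongr
          _ = K * C ^ k * (((k : ℝ) + 1) ^ 2 * k.factorial) := by ring
          _ ≤ K * C ^ k * R := by gcongr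
      have hm : m (k + 6) = (4 * τ * m (k + 4) + 2 * t * m (k + 2) + ((k : ℝ) + 1) * m k) / 6 := by
        push_cast at hr
        linarith
      have hsq : m (k + 6) ^ 2 ≤ (16 * τ ^ 2 * m (k + 4) ^ 2 + 4 * t ^ 2 * m (k + 2) ^ 2 +
          ((k : ℝ) + 1) ^ 2 * m k ^ 2) / 12 := by
        rw [hm]
        nlinarith [sq_nonneg (4 * τ * m (k + 4) - 2 * t * m (k + 2)),
          sq_nonneg (4 * τ * m (k + 4) - ((k : ℝ) + 1) * m k),
          sq_nonneg (2 * t * m (k + 2) - ((k : ℝ) + 1) * m k)]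
      set Z : ℝ := K * C ^ k * R with hZ
      have hZpos : 0 < Z := by positivity
      have g4' : m (k + 4) ^ 2 ≤ Z * C ^ 4 := by rw [hZ]; rw [pow_add] at g4; linarith
      have g2' : m (k + 2) ^ 2 ≤ Z * C ^ 2 := by rw [hZ]; rw [pow_add] at g2; linarith
      have hτ : 2 * τ ^ 2 ≤ C := by rw [hC]; nlinarith [sq_nonneg t]
      have ht : t ^ 2 ≤ C := by rw [hC]; nlinarith [sq_nonneg τ]
      have hfin : (16 * τ ^ 2 * m (k + 4) ^ 2 + 4 * t ^ 2 * m (k + 2) ^ 2 +
          ((k : ℝ) + 1) ^ 2 * m k ^ 2) / 12 ≤ Z * C ^ 6 := by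
        have a1 : 16 * τ ^ 2 * m (k + 4) ^ 2 ≤ 8 * C * (Z * C ^ 4) := by
          have : 16 * τ ^ 2 ≤ 8 * C := by linarith
          gcongr
        have a2 : 4 * t ^ 2 * m (k + 2) ^ 2 ≤ 4 * C * (Z * C ^ 2) := by
          have : 4 * t ^ 2 ≤ 4 * C := by linarith
          gcongr
        have a3 : C ^ 3 ≤ C ^ 6 := pow_le_pow_right₀ (by linarith) (by norm_num)
        have a4 : C ^ 5 ≤ C ^ 6 / 2 := by
          have : C ^ 6 = C * C ^ 5 := by ring
          rw [this]
          have : 0 < C ^ 5 := by positivity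
          nlinarith
        have a5 : (1 : ℝ) ≤ C ^ 6 := one_le_pow₀ (by linarith)
        have b1 : 8 * C * (Z * C ^ 4) = 8 * (Z * C ^ 5) := by ring
        have b2 : 4 * C * (Z * C ^ 2) = 4 * (Z * C ^ 3) := by ring
        have c1 : Z * C ^ 5 ≤ Z * (C ^ 6 / 2) := by gcongr
        have c2 : Z * C ^ 3 ≤ Z * C ^ 6 := by gcongr
        have c3 : Z ≤ Z * C ^ 6 := by nlinarith
        nlinarith
      calc m (k + 6) ^ 2 ≤ Z * C ^ 6 := hsq.trans hfin
        _ = K * C ^ (k + 6) * R := by rw [hZ, pow_add]; ring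

/-- Entire generating functions. -/
lemma summ {τ t : ℝ} {m : ℕ → ℝ} (h : Rec τ t m) (k : ℕ) (r : ℝ) (hr : 0 ≤ r) :
    Summable fun n : ℕ => |m (n + k)| * r ^ n / n.factorial := by
  obtain ⟨K, C, hK, hC, hm⟩ := growth h
  have h1 : Summable fun n : ℕ => (K * C ^ k * 2 ^ k * k.factorial) *
      ((8 * C * r ^ 2) ^ n / n.factorial) + (1 / 4 : ℝ) ^ n := by
    apply Summable.add
    · exact (Real.summable_pow_div_factorial _).mul_left _
    · exact summable_geometric_of_lt_one (by norm_num) (by norm_num)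
  refine h1.of_nonneg_of_le (fun n => by positivity) (fun n => ?_)
  have hn : (0 : ℝ) < n.factorial := by exact_mod_cast Nat.factorial_pos _
  have hk : (0 : ℝ) < k.factorial := by exact_mod_cast Nat.factorial_pos _
  have h2 : (((n + k).factorial : ℕ) : ℝ) ≤ 2 ^ (n + k) * n.factorial * k.factorial := by
    have e1 : (n + k).factorial = (n + k).choose k * k.factorial * n.factorial := by
      have := Nat.choose_mul_factorial_mul_factorial (Nat.le_add_left k n)
      rw [Nat.add_sub_cancel] at this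
      exact this.symm
    have e2 : (n + k).choose k ≤ 2 ^ (n + k) := Nat.choose_le_two_pow _ _
    have e3 : (n + k).factorial ≤ 2 ^ (n + k) * n.factorial * k.factorial := by
      rw [e1]
      calc (n + k).choose k * k.factorial * n.factorial
          ≤ 2 ^ (n + k) * k.factorial * n.factorial := by gcongr
        _ = 2 ^ (n + k) * n.factorial * k.factorial := by ring
    exact_mod_cast e3
  have h3 : m (n + k) ^ 2 ≤ K * C ^ (n + k) * (2 ^ (n + k) * n.factorial * k.factorial) :=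
    (hm (n + k)).trans (by gcongr)
  -- AM-GM
  have h4 : |m (n + k)| * r ^ n / n.factorial =
      (|m (n + k)| * r ^ n * 2 ^ n / n.factorial) * (1 / 2) ^ n := by
    rw [one_div, inv_pow]
    field_simp
  have h5 : (|m (n + k)| * r ^ n * 2 ^ n / n.factorial) * (1 / 2) ^ n ≤
      ((|m (n + k)| * r ^ n * 2 ^ n / n.factorial) ^ 2 + ((1 / 2) ^ n) ^ 2) / 2 := by
    nlinarith [sq_nonneg ((|m (n + k)| * r ^ n * 2 ^ n / n.factorial) - (1 / 2) ^ n)]
  have h6 : (|m (n + k)| * r ^ n * 2 ^ n / n.factorial) ^ 2 ≤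
      (K * C ^ k * 2 ^ k * k.factorial) * ((8 * C * r ^ 2) ^ n / n.factorial) := by
    rw [div_pow, mul_pow, mul_pow, sq_abs, div_le_iff₀ (by positivity)]
    calc m (n + k) ^ 2 * (r ^ n) ^ 2 * (2 ^ n) ^ 2
        ≤ (K * C ^ (n + k) * (2 ^ (n + k) * n.factorial * k.factorial)) * (r ^ n) ^ 2 *
          (2 ^ n) ^ 2 := by gcongr
      _ = (K * C ^ k * 2 ^ k * k.factorial) * ((8 * C * r ^ 2) ^ n / n.factorial) *
          (n.factorial : ℝ) ^ 2 := by
          have : (8 * C * r ^ 2) ^ n = (2 ^ n) * ((2 : ℝ) ^ n) ^ 2 * C ^ n * (r ^ n) ^ 2 := by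
            rw [← pow_mul, ← pow_mul, mul_comm n 2, pow_mul, pow_mul, ← mul_pow, ← mul_pow,
              ← mul_pow]
            norm_num
          rw [this, pow_add, pow_add]
          field_simp
  have h7 : (((1 : ℝ) / 2) ^ n) ^ 2 = (1 / 4) ^ n := by
    rw [← pow_mul, mul_comm, pow_mul]; norm_num
  have h8 : 0 ≤ (K * C ^ k * 2 ^ k * k.factorial) * ((8 * C * r ^ 2) ^ n / n.factorial) := by
    positivity
  have h9 : (0 : ℝ) < (1 / 4) ^ n := by positivity
  rw [h4]
  refine h5.trans ?_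
  rw [h7]
  linarith

end Pool.Agent.V1184.Freud
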