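import Mathlib
import Pool.Agent.V1184.FreudAlgebra
import Pool.Agent.V1184.FreudGrowth
import Pool.Agent.V1184.FreudFourier

/-! Generating functions of the moments. -/

open Filter Topology

namespace Pool.Agent.V1184.Freud

/-- `z_n = (i s)^n / n!` -/
noncomputable def zz (s : ℝ) (n : ℕ) : ℂ := (Complex.I * s) ^ n / n.factorial

lemma zz_norm (s : ℝ) (n : ℕ) : ‖zz s n‖ = |s| ^ n / n.factorial := by
  unfold zz
  rw [norm_div, norm_pow, norm_mul, Complex.norm_I, one_mul, Complex.norm_real, Real.norm_eq_abs,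
    Complex.norm_natCast]

lemma zz_zero (s : ℝ) : zz s 0 = 1 := by simp [zz]

lemma zz_at_zero (n : ℕ) : zz 0 n = if n = 0 then 1 else 0 := by
  unfold zz
  rcases Nat.eq_zero_or_pos n with h | h
  · subst h; simp
  · rw [if_neg (by omega)]; simp [h.ne']

lemma zz_succ (s : ℝ) (n : ℕ) : ((n : ℂ) + 1) * zz s (n + 1) = Complex.I * s * zz s n := by
  unfold zz
  rw [Nat.factorial_succ]
  have h1 : ((n : ℂ) + 1) ≠ 0 := by exact_mod_cast Nat.succ_ne_zero n
  have h2 : (n.factorial : ℂ) ≠ 0 := by exact_mod_cast n.factorial_ne_zero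
  push_cast
  field_simp
  ring

lemma zz_deriv (s : ℝ) (n : ℕ) :
    HasDerivAt (fun s : ℝ => zz s (n + 1)) (Complex.I * zz s n) s := by
  have h1 : HasDerivAt (fun s : ℝ => Complex.I * (s : ℂ)) Complex.I s := by
    have := (Complex.ofRealCLM.hasDerivAt (x := s)).const_mul Complex.I
    simpa using this
  have h2 := (h1.pow (n + 1)).div_const ((n + 1).factorial : ℂ)
  refine HasDerivAt.congr_deriv h2 ?_
  unfold zz
  rw [Nat.factorial_succ, Nat.add_sub_cancel]
  have h1 : ((n : ℂ) + 1) ≠ 0 := by exact_mod_cast Nat.succ_ne_zero n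
  have h2 : (n.factorial : ℂ) ≠ 0 := by exact_mod_cast n.factorial_ne_zero
  push_cast
  field_simp

lemma zz_deriv_zero (s : ℝ) : HasDerivAt (fun s : ℝ => zz s 0) 0 s := by
  have : (fun s : ℝ => zz s 0) = fun _ => 1 := by ext s; exact zz_zero s
  rw [this]
  exact hasDerivAt_const s 1

/-- The family. -/
noncomputable def FF (m : ℕ → ℝ) (k : ℕ) (s : ℝ) : ℂ := ∑' n : ℕ, (m (n + k) : ℂ) * zz s n

variable {m : ℕ → ℝ}

/-- summability hypothesis -/
def Sm (m : ℕ → ℝ) : Prop := ∀ k : ℕ, ∀ r : ℝ, 0 ≤ r →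
  Summable fun n : ℕ => |m (n + k)| * r ^ n / n.factorial

lemma Sm.norm (h : Sm m) (k : ℕ) (s : ℝ) : Summable fun n : ℕ => ‖(m (n + k) : ℂ) * zz s n‖ := by
  refine (h k |s| (abs_nonneg s)).congr fun n => ?_
  rw [norm_mul, zz_norm, Complex.norm_real, Real.norm_eq_abs, mul_div_assoc]

lemma Sm.summ (h : Sm m) (k : ℕ) (s : ℝ) : Summable fun n : ℕ => (m (n + k) : ℂ) * zz s n :=
  (h.norm k s).of_norm

lemma FF_deriv (h : Sm m) (k : ℕ) (s : ℝ) :
    HasDerivAt (FF m k) (Complex.I * FF m (k + 1) s) s := by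
  set R : ℝ := |s| + 1 with hR
  have hRpos : 0 < R := by have := abs_nonneg s; linarith
  have hs : s ∈ Metric.ball (0 : ℝ) R := by
    rw [Metric.mem_ball, dist_zero_right, Real.norm_eq_abs]; linarith
  let g : ℕ → ℝ → ℂ := fun n s => (m (n + k) : ℂ) * zz s n
  let g' : ℕ → ℝ → ℂ := fun n s => match n with
    | 0 => 0
    | n + 1 => (m (n + 1 + k) : ℂ) * (Complex.I * zz s n)
  let u : ℕ → ℝ := fun n => match n with
    | 0 => 0
    | n + 1 => |m (n + (k + 1))| * R ^ n / n.factorial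
  have hu : Summable u := by
    rw [← summable_nat_add_iff 1]
    exact h (k + 1) R hRpos.le
  have hg : ∀ n, ∀ y ∈ Metric.ball (0 : ℝ) R, HasDerivAt (g n) (g' n y) y := by
    intro n y _
    match n with
    | 0 =>
      have := (zz_deriv_zero y).const_mul (m (0 + k) : ℂ)
      rw [mul_zero] at this
      exact this
    | n + 1 => exact (zz_deriv y n).const_mul (m (n + 1 + k) : ℂ)
  have hg' : ∀ n, ∀ y ∈ Metric.ball (0 : ℝ) R, ‖g' n y‖ ≤ u n := by
    intro n y hy
    rw [Metric.mem_ball, dist_zero_right, Real.norm_eq_abs] at hy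
    match n with
    | 0 => simp [g', u]
    | n + 1 =>
      change ‖(m (n + 1 + k) : ℂ) * (Complex.I * zz y n)‖ ≤ |m (n + (k + 1))| * R ^ n / n.factorial
      rw [norm_mul, norm_mul, Complex.norm_I, one_mul, zz_norm, Complex.norm_real,
        Real.norm_eq_abs, show n + 1 + k = n + (k + 1) by ring, mul_div_assoc]
      have h0 := abs_nonneg y
      gcongr
  have key := hasDerivAt_tsum_of_isPreconnected hu Metric.isOpen_ball
    (convex_ball (0 : ℝ) R).isPreconnected hg hg' hs (h.summ k s) hs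
  have e1 : ∑' n, g' n s = Complex.I * FF m (k + 1) s := by
    have hsum : Summable fun n => g' n s := Summable.of_norm_bounded hu (fun n => hg' n s hs)
    rw [hsum.tsum_eq_zero_add]
    change (0 : ℂ) + ∑' n : ℕ, (m (n + 1 + k) : ℂ) * (Complex.I * zz s n) = _
    rw [zero_add, FF, ← tsum_mul_left]
    congr 1
    ext n
    rw [show n + 1 + k = n + (k + 1) by ring]
    ring
  rw [e1] at key
  exact key

lemma FF_zero (k : ℕ) : FF m k 0 = m k := by
  unfold FF
  rw [tsum_eq_single 0]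
  · rw [zz_zero, mul_one, Nat.zero_add]
  · intro n hn
    rw [zz_at_zero, if_neg hn, mul_zero]

lemma FF_ode {τ t : ℝ} (h : Sm m) (hR : Rec τ t m) (s : ℝ) :
    6 * FF m 5 s - 4 * τ * FF m 3 s - 2 * t * FF m 1 s = Complex.I * s * FF m 0 s := by
  have h5 := (h.summ 5 s).mul_left (6 : ℂ)
  have h3 := (h.summ 3 s).mul_left (4 * τ : ℂ)
  have h1 := (h.summ 1 s).mul_left (2 * t : ℂ)
  have e1 : 6 * FF m 5 s - 4 * τ * FF m 3 s - 2 * t * FF m 1 s =
      ∑' n : ℕ, (n * m (n - 1) : ℂ) * zz s n := by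
    unfold FF
    rw [← tsum_mul_left, ← tsum_mul_left, ← tsum_mul_left, ← h5.tsum_sub h3,
      ← (h5.sub h3).tsum_sub h1]
    congr 1
    ext n
    have hr := hR n
    have hr' : (6 * m (n + 5) - 4 * τ * m (n + 3) - 2 * t * m (n + 1) : ℂ) = n * m (n - 1) := by
      exact_mod_cast hr
    rw [← hr']; ring
  have hsum : Summable fun n : ℕ => (n * m (n - 1) : ℂ) * zz s n := by
    refine ((h5.sub h3).sub h1).congr fun n => ?_
    have hr := hR n
    have hr' : (6 * m (n + 5) - 4 * τ * m (n + 3) - 2 * t * m (n + 1) : ℂ) = n * m (n - 1) := by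
      exact_mod_cast hr
    rw [← hr']; ring
  rw [e1, hsum.tsum_eq_zero_add, FF, ← tsum_mul_left]
  simp only [Nat.cast_zero, zero_mul, zero_add]
  congr 1
  ext n
  rw [Nat.add_sub_cancel, Nat.add_zero]
  have := zz_succ s n
  push_cast
  linear_combination (m n : ℂ) * this

/-- The double series. -/
noncomputable def dd (m : ℕ → ℝ) (s : ℝ) (p : ℕ × ℕ) : ℂ :=
  (m (p.1 + p.2) : ℂ) * (zz s p.1 * zz (-s) p.2)

lemma anti_sum (x y : ℂ) (n : ℕ) :
    ∑ p ∈ Finset.HasAntidiagonal.antidiagonal n, (x ^ p.1 / p.1.factorial) * (y ^ p.2 / p.2.factorial) =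
      (x + y) ^ n / n.factorial := by
  rw [(Commute.all x y).add_pow', Finset.sum_div]
  apply Finset.sum_congr rfl
  intro p hp
  rw [Finset.HasAntidiagonal.mem_antidiagonal] at hp
  have h1 : n.choose p.1 * p.1.factorial * p.2.factorial = n.factorial := by
    have := Nat.choose_mul_factorial_mul_factorial (show p.1 ≤ n by omega)
    rwa [show n - p.1 = p.2 by omega] at this
  have h2 : (n.factorial : ℂ) = n.choose p.1 * p.1.factorial * p.2.factorial := by
    exact_mod_cast h1.symm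
  have h3 : (p.1.factorial : ℂ) ≠ 0 := by exact_mod_cast p.1.factorial_ne_zero
  have h4 : (p.2.factorial : ℂ) ≠ 0 := by exact_mod_cast p.2.factorial_ne_zero
  have h5 : (n.choose p.1 : ℂ) ≠ 0 := by
    exact_mod_cast (Nat.choose_pos (show p.1 ≤ n by omega)).ne'
  rw [h2, nsmul_eq_mul]
  field_simp

lemma anti_sum_real (x y : ℝ) (n : ℕ) :
    ∑ p ∈ Finset.HasAntidiagonal.antidiagonal n, (x ^ p.1 / p.1.factorial) * (y ^ p.2 / p.2.factorial) =
      (x + y) ^ n / n.factorial := by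
  exact_mod_cast anti_sum (x : ℂ) (y : ℂ) n

lemma dd_norm (m : ℕ → ℝ) (s : ℝ) (p : ℕ × ℕ) : ‖dd m s p‖ =
    |m (p.1 + p.2)| * ((|s| ^ p.1 / p.1.factorial) * (|s| ^ p.2 / p.2.factorial)) := by
  unfold dd
  rw [norm_mul, norm_mul, zz_norm, zz_norm, Complex.norm_real, Real.norm_eq_abs, abs_neg]

lemma dd_summable (h : Sm m) (s : ℝ) : Summable (dd m s) := by
  apply Summable.of_norm
  rw [← (Finset.HasAntidiagonal.sigmaAntidiagonalEquivProd (A := ℕ)).summable_iff]
  change Summable fun x : (Σ n : ℕ, Finset.HasAntidiagonal.antidiagonal n) =>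
      ‖dd m s (Finset.HasAntidiagonal.sigmaAntidiagonalEquivProd x)‖
  rw [summable_sigma_of_nonneg (fun _ => norm_nonneg _)]
  refine ⟨fun n => Summable.of_finite, ?_⟩
  refine (h 0 (2 * |s|) (by positivity)).congr fun n => ?_
  rw [tsum_fintype]
  have e1 : ∀ y : Finset.HasAntidiagonal.antidiagonal n,
      ‖dd m s (Finset.HasAntidiagonal.sigmaAntidiagonalEquivProd (A := ℕ) ⟨n, y⟩)‖ = ‖dd m s y.1‖ :=
    fun y => rfl
  simp_rw [e1]
  rw [Finset.sum_coe_sort (Finset.HasAntidiagonal.antidiagonal n) (fun p => ‖dd m s p‖)]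
  have e2 : ∀ p ∈ Finset.HasAntidiagonal.antidiagonal n, ‖dd m s p‖ =
      |m n| * ((|s| ^ p.1 / p.1.factorial) * (|s| ^ p.2 / p.2.factorial)) := by
    intro p hp
    rw [dd_norm, Finset.HasAntidiagonal.mem_antidiagonal.1 hp]
  rw [Finset.sum_congr rfl e2, ← Finset.mul_sum, anti_sum_real, Nat.add_zero]
  ring

lemma dd_tsum (h : Sm m) (s : ℝ) : ∑' p, dd m s p = m 0 := by
  have hs := dd_summable h s
  rw [← (Finset.HasAntidiagonal.sigmaAntidiagonalEquivProd (A := ℕ)).tsum_eq]
  have hs' : Summable fun x : (Σ n : ℕ, Finset.HasAntidiagonal.antidiagonal n) =>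
      dd m s (Finset.HasAntidiagonal.sigmaAntidiagonalEquivProd x) :=
    Finset.HasAntidiagonal.sigmaAntidiagonalEquivProd.summable_iff.2 hs
  rw [hs'.tsum_sigma' (fun n => Summable.of_finite)]
  rw [tsum_eq_single 0]
  · rw [tsum_fintype]
    have e1 : ∀ y : Finset.HasAntidiagonal.antidiagonal 0, dd m s
      (Finset.HasAntidiagonal.sigmaAntidiagonalEquivProd (A := ℕ) ⟨0, y⟩) = dd m s y.1 := fun y => rfl
    simp_rw [e1]
    rw [Finset.sum_coe_sort (Finset.HasAntidiagonal.antidiagonal 0) (fun p => dd m s p)]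
    simp [dd, zz_zero]
  · intro n hn
    rw [tsum_fintype]
    have e1 : ∀ y : Finset.HasAntidiagonal.antidiagonal n, dd m s
      (Finset.HasAntidiagonal.sigmaAntidiagonalEquivProd (A := ℕ) ⟨n, y⟩) = dd m s y.1 := fun y => rfl
    simp_rw [e1]
    rw [Finset.sum_coe_sort (Finset.HasAntidiagonal.antidiagonal n) (fun p => dd m s p)]
    have e2 : ∀ p ∈ Finset.HasAntidiagonal.antidiagonal n, dd m s p =
      (m n : ℂ) * (((Complex.I * s) ^ p.1 / p.1.factorial) *
        ((Complex.I * ((-s : ℝ) : ℂ)) ^ p.2 / p.2.factorial)) := by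
      intro p hp
      rw [dd, Finset.HasAntidiagonal.mem_antidiagonal.1 hp]; rfl
    rw [Finset.sum_congr rfl e2, ← Finset.mul_sum, anti_sum]
    have : Complex.I * s + Complex.I * ((-s : ℝ) : ℂ) = 0 := by push_cast; ring
    rw [this, zero_pow hn]; simp

lemma square_tendsto : Tendsto (fun N : ℕ => Finset.range N ×ˢ Finset.range N) atTop atTop := by
  apply tendsto_atTop_finset_of_monotone
  · intro a b hab
    exact Finset.product_subset_product (Finset.range_mono hab) (Finset.range_mono hab)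
  · intro p
    refine ⟨max p.1 p.2 + 1, ?_⟩
    rw [Finset.mem_product, Finset.mem_range, Finset.mem_range]
    constructor
    · have := le_max_left p.1 p.2; omega
    · have := le_max_right p.1 p.2; omega

lemma dd_tendsto (h : Sm m) (s : ℝ) :
    Tendsto (fun N : ℕ => ∑ j ∈ Finset.range N, ∑ l ∈ Finset.range N, dd m s (j, l)) atTop
      (𝓝 (m 0 : ℂ)) := by
  have h1 := (dd_summable h s).hasSum
  rw [dd_tsum h s] at h1
  have h2 := h1.comp square_tendsto
  refine h2.congr fun N => ?_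
  simp only [Function.comp]
  rw [Finset.sum_product]

end Pool.Agent.V1184.Freud
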