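import Mathlib
import Pool.Agent.V1184.FreudGen
import Pool.Agent.V1184.FreudDist

/-! Uniqueness for the sextic Freud string equation. -/

open Filter Topology

namespace Pool.Agent.V1184.Freud

lemma zz_conj (s : ℝ) (n : ℕ) : zz (-s) n = (starRingEnd ℂ) (zz s n) := by
  unfold zz
  rw [map_div₀, map_pow, map_mul, Complex.conj_I, Complex.conj_ofReal, Complex.conj_natCast]
  congr 2
  push_cast; ring

lemma FF_bound {b : ℕ → ℝ} (hb0 : b 0 = 0) (hb : ∀ n, 1 ≤ n → 0 < b n) (h : Sm (mom b))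
    (k : ℕ) (s : ℝ) : ‖FF (mom b) k s‖ ^ 2 ≤ mom b (2 * k) := by
  set v : ℕ → (ℕ →₀ ℝ) := fun n => (J b ^ n) (e 0) with hv
  have hmom : ∀ j l, mom b (j + l) = B b (v j) (v l) := fun j l => mom_add hb0 j l
  set Cc : ℕ → (ℕ →₀ ℝ) := fun N => ∑ n ∈ Finset.range N, (zz s n).re • v n with hC
  set Ss : ℕ → (ℕ →₀ ℝ) := fun N => ∑ n ∈ Finset.range N, (zz s n).im • v n with hS
  have hre : ∀ N, (∑ n ∈ Finset.range N, (mom b (n + k) : ℂ) * zz s n).re = B b (Cc N) (v k) := by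
    intro N
    rw [Complex.re_sum, hC]
    simp only [map_sum, LinearMap.sum_apply, map_smul, LinearMap.smul_apply, smul_eq_mul]
    apply Finset.sum_congr rfl
    intro n _
    rw [← hmom, Complex.re_ofReal_mul]; ring
  have him : ∀ N, (∑ n ∈ Finset.range N, (mom b (n + k) : ℂ) * zz s n).im = B b (Ss N) (v k) := by
    intro N
    rw [Complex.im_sum, hS]
    simp only [map_sum, LinearMap.sum_apply, map_smul, LinearMap.smul_apply, smul_eq_mul]
    apply Finset.sum_congr rfl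
    intro n _
    rw [← hmom, Complex.im_ofReal_mul]; ring
  have hdd : ∀ N, (∑ j ∈ Finset.range N, ∑ l ∈ Finset.range N, dd (mom b) s (j, l)).re =
      B b (Cc N) (Cc N) + B b (Ss N) (Ss N) := by
    intro N
    rw [Complex.re_sum, hC, hS]
    simp only [map_sum, LinearMap.sum_apply, map_smul, LinearMap.smul_apply, smul_eq_mul,
      Complex.re_sum]
    rw [Finset.sum_comm, ← Finset.sum_add_distrib]
    apply Finset.sum_congr rfl
    intro l _
    rw [Finset.mul_sum, Finset.mul_sum, ← Finset.sum_add_distrib]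
    apply Finset.sum_congr rfl
    intro j _
    rw [dd, zz_conj, ← hmom, Complex.re_ofReal_mul]
    simp only [Complex.mul_re, Complex.conj_re, Complex.conj_im]
    ring
  have hk : mom b (2 * k) = B b (v k) (v k) := by rw [two_mul, hmom]
  have hle : ∀ N, ‖∑ n ∈ Finset.range N, (mom b (n + k) : ℂ) * zz s n‖ ^ 2 ≤
      mom b (2 * k) * (∑ j ∈ Finset.range N, ∑ l ∈ Finset.range N, dd (mom b) s (j, l)).re := by
    intro N
    rw [← Complex.normSq_eq_norm_sq, Complex.normSq_apply, hre, him, hdd, hk]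
    have h1 := cauchy hb (Cc N) (v k)
    have h2 := cauchy hb (Ss N) (v k)
    nlinarith
  have l1 : Tendsto (fun N => ‖∑ n ∈ Finset.range N, (mom b (n + k) : ℂ) * zz s n‖ ^ 2) atTop
      (𝓝 (‖FF (mom b) k s‖ ^ 2)) :=
    ((h.summ k s).hasSum.tendsto_sum_nat.norm).pow 2
  have l2 : Tendsto (fun N => mom b (2 * k) *
      (∑ j ∈ Finset.range N, ∑ l ∈ Finset.range N, dd (mom b) s (j, l)).re) atTop
      (𝓝 (mom b (2 * k) * ((mom b 0 : ℝ) : ℂ).re)) :=
    ((Complex.continuous_re.tendsto _).comp (dd_tendsto h s)).const_mul _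
  rw [mom_zero, Complex.ofReal_re, mul_one] at l2
  exact le_of_tendsto_of_tendsto' l1 l2 hle

theorem moments_eq {τ t : ℝ} {b : ℕ → ℝ} (hb0 : b 0 = 0) (hb : ∀ n, 1 ≤ n → 0 < b n)
    (hE : IsString τ t b) (k : ℕ) : mom b k = mu τ t k / mu τ t 0 := by
  have hR : Rec τ t (mom b) := pearson hb0 hE
  have hS : Sm (mom b) := fun k r hr => summ hR k r hr
  have hF : Fam τ t (FF (mom b)) := by
    refine ⟨fun k s => FF_deriv hS k s, fun k => ⟨Real.sqrt (mom b (2 * k)), fun s => ?_⟩,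
      fun s => FF_ode hS hR s⟩
    exact Real.le_sqrt_of_sq_le (FF_bound hb0 hb hS k s)
  obtain ⟨c, hc⟩ := moments hF
  have h0 := hc 0
  have hk := hc k
  rw [FF_zero] at h0 hk
  rw [mom_zero] at h0
  have hmu : 0 < mu τ t 0 := mu_even_pos τ t 0
  have hmu' : (mu τ t 0 : ℂ) ≠ 0 := by exact_mod_cast hmu.ne'
  have hc' : c = 1 / mu τ t 0 := by
    field_simp
    rw [← h0]; simp
  rw [hc'] at hk
  have : ((mom b k : ℝ) : ℂ) = ((mu τ t k / mu τ t 0 : ℝ) : ℂ) := by
    rw [hk]; push_cast; ring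
  exact_mod_cast this

theorem unique_b1 {τ t : ℝ} {b : ℕ → ℝ} (hb0 : b 0 = 0) (hb : ∀ n, 1 ≤ n → 0 < b n)
    (hE : IsString τ t b) : b 1 = mu τ t 2 / mu τ t 0 := by
  rw [← mom_two hb0, moments_eq hb0 hb hE]

theorem unique_b2 {τ t : ℝ} {b : ℕ → ℝ} (hb0 : b 0 = 0) (hb : ∀ n, 1 ≤ n → 0 < b n)
    (hE : IsString τ t b) : b 2 = mu τ t 4 / mu τ t 2 - mu τ t 2 / mu τ t 0 := by
  have h1 := unique_b1 hb0 hb hE
  have h4 := mom_four hb0
  rw [moments_eq hb0 hb hE, h1] at h4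
  have p0 : 0 < mu τ t 0 := mu_even_pos τ t 0
  have p2 : 0 < mu τ t 2 := mu_even_pos τ t 1
  field_simp at h4 ⊢
  linarith

end Pool.Agent.V1184.Freud
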