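import Mathlib

/-! Diagonal operators on `ℓ²(ℕ × Bool)`. -/

open Filter Topology
open scoped ENNReal InnerProductSpace

namespace Pool.Agent.V1184.Damp

/-- index set -/
abbrev Ix := ℕ × Bool

/-- The Hilbert space. -/
noncomputable abbrev HH := lp (fun _ : Ix => ℂ) 2

lemma memlp2 {f : Ix → ℂ} : Memℓp (E := fun _ : Ix => ℂ) f 2 ↔ Summable fun k => ‖f k‖ ^ 2 := by
  rw [memℓp_gen_iff (by norm_num)]
  simp

lemma summ_sq (u : HH) : Summable fun k => ‖u k‖ ^ 2 := memlp2.1 (lp.memℓp u)

lemma norm_sq (u : HH) : ‖u‖ ^ 2 = ∑' k, ‖u k‖ ^ 2 := by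
  have := lp.norm_rpow_eq_tsum (p := 2) (by norm_num) u
  simpa using this

lemma norm_sq_hasSum (u : HH) : HasSum (fun k => ‖u k‖ ^ 2) (‖u‖ ^ 2) := by
  rw [norm_sq]; exact (summ_sq u).hasSum

/-- domain of the diagonal operator -/
noncomputable def dom (a : Ix → ℝ) : Submodule ℂ HH where
  carrier := {x | Memℓp (E := fun _ : Ix => ℂ) (fun k => (a k : ℂ) * x k) 2}
  add_mem' := by
    intro x y hx hy
    have := Memℓp.add hx hy
    refine cast (congrArg (fun f => Memℓp f 2) ?_) this
    ext k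
    change (a k : ℂ) * x k + (a k : ℂ) * y k = (a k : ℂ) * (x k + y k)
    ring
  zero_mem' := by
    have : (fun k => (a k : ℂ) * (0 : HH) k) = 0 := by
      ext k
      change (a k : ℂ) * 0 = 0
      ring
    change Memℓp (E := fun _ : Ix => ℂ) (fun k => (a k : ℂ) * (0 : HH) k) 2
    rw [this]
    exact zero_memℓp
  smul_mem' := by
    intro c x hx
    have := Memℓp.const_smul hx c
    refine cast (congrArg (fun f => Memℓp f 2) ?_) this
    ext k
    change c * ((a k : ℂ) * x k) = (a k : ℂ) * (c * x k)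
    ring

lemma mem_dom {a : Ix → ℝ} {x : HH} :
    x ∈ dom a ↔ Memℓp (E := fun _ : Ix => ℂ) (fun k => (a k : ℂ) * x k) 2 := Iff.rfl

/-- The diagonal operator. -/
noncomputable def Dg (a : Ix → ℝ) : HH →ₗ.[ℂ] HH where
  domain := dom a
  toFun :=
    { toFun := fun x => ⟨fun k => (a k : ℂ) * (x : HH) k, x.2⟩
      map_add' := by
        intro x y
        ext k
        change (a k : ℂ) * ((x : HH) k + (y : HH) k) = (a k : ℂ) * (x : HH) k + (a k : ℂ) * (y : HH) k
        ring
      map_smul' := by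
        intro c x
        ext k
        change (a k : ℂ) * (c * (x : HH) k) = c * ((a k : ℂ) * (x : HH) k)
        ring }

lemma Dg_apply (a : Ix → ℝ) (x : (Dg a).domain) (k : Ix) : (Dg a x) k = (a k : ℂ) * (x : HH) k := rfl

lemma single_mem (a : Ix → ℝ) (k : Ix) (c : ℂ) :
    lp.single (E := fun _ : Ix => ℂ) 2 k c ∈ dom a := by
  rw [mem_dom, memlp2]
  apply summable_of_ne_finset_zero (s := {k})
  intro j hj
  rw [Finset.mem_singleton] at hj
  rw [lp.single_apply_ne _ _ _ hj]
  simp

lemma dom_dense (a : Ix → ℝ) : Dense ((Dg a).domain : Set HH) := by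
  intro x
  have h := lp.hasSum_single (p := 2) (by norm_num) x
  refine mem_closure_of_tendsto h (Eventually.of_forall fun s => ?_)
  exact Submodule.sum_mem _ fun k _ => single_mem a k _

lemma Dg_symm (a : Ix → ℝ) (x y : (Dg a).domain) : ⟪Dg a x, (y : HH)⟫_ℂ = ⟪(x : HH), Dg a y⟫_ℂ := by
  rw [lp.inner_eq_tsum, lp.inner_eq_tsum]
  congr 1
  ext k
  rw [Dg_apply, Dg_apply]
  simp only [RCLike.inner_apply, map_mul, Complex.conj_ofReal]
  ring

lemma Dg_selfAdjoint (a : Ix → ℝ) : IsSelfAdjoint (Dg a) := by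
  rw [LinearPMap.isSelfAdjoint_def]
  have hd := dom_dense a
  have key : ∀ y : HH, ∀ hy : y ∈ ((Dg a).adjoint).domain, ∀ k,
      ((Dg a).adjoint ⟨y, hy⟩) k = (a k : ℂ) * y k := by
    intro y hy k
    have h := LinearPMap.adjoint_isFormalAdjoint hd ⟨y, hy⟩ ⟨_, single_mem a k 1⟩
    have e1 : Dg a ⟨_, single_mem a k 1⟩ = lp.single (E := fun _ : Ix => ℂ) 2 k (a k : ℂ) := by
      ext j
      rw [Dg_apply]
      by_cases hj : j = k
      · subst hj
        rw [lp.single_apply_self, lp.single_apply_self, mul_one]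
      · rw [lp.single_apply_ne _ _ _ hj, lp.single_apply_ne _ _ _ hj, mul_zero]
    rw [e1] at h
    change ⟪(Dg a).adjoint ⟨y, hy⟩, lp.single (E := fun _ : Ix => ℂ) 2 k 1⟫_ℂ =
      ⟪y, lp.single (E := fun _ : Ix => ℂ) 2 k (a k : ℂ)⟫_ℂ at h
    rw [lp.inner_single_right, lp.inner_single_right] at h
    simp only [RCLike.inner_apply, one_mul] at h
    have h2 := congrArg (starRingEnd ℂ) h
    simpa using h2
  refine LinearPMap.ext (le_antisymm ?_ ?_) ?_
  · intro y hy
    have h1 := lp.memℓp ((Dg a).adjoint ⟨y, hy⟩)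
    have h2 : (((Dg a).adjoint ⟨y, hy⟩ : HH) : Ix → ℂ) = fun k => (a k : ℂ) * y k := by
      ext k; exact key y hy k
    rw [h2] at h1
    exact h1
  · intro y hy
    exact LinearPMap.mem_adjoint_domain_of_exists _ ⟨Dg a ⟨y, hy⟩, fun x => Dg_symm a ⟨y, hy⟩ x⟩
  · intro x hf hg
    ext k
    rw [key x hf k, Dg_apply]

/-- bounded diagonal operator -/
noncomputable def Bd (d : Ix → ℂ) (C : ℝ) (hC : ∀ k, ‖d k‖ ≤ C) : HH →L[ℂ] HH :=
  LinearMap.mkContinuous
    { toFun := fun x => ⟨fun k => d k * x k, by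
        refine Memℓp.mono' (g := fun k => (C : ℂ) * x k) ((lp.memℓp x).const_mul (C : ℂ)) ?_
        intro k
        rw [norm_mul, norm_mul, Complex.norm_real]
        have := (hC k).trans (Real.le_norm_self C)
        gcongr⟩
      map_add' := by
        intro x y
        ext k
        change d k * (x k + y k) = d k * x k + d k * y k
        ring
      map_smul' := by
        intro c x
        ext k
        change d k * (c * x k) = c * (d k * x k)
        ring } C (by
      intro x
      have hC0 : 0 ≤ C := (norm_nonneg _).trans (hC (0, false))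
      have h1 : ‖(C : ℂ) • x‖ = C * ‖x‖ := by
        rw [norm_smul, Complex.norm_real, Real.norm_of_nonneg hC0]
      rw [← h1]
      apply lp.norm_mono (by norm_num)
      intro k
      change ‖d k * x k‖ ≤ ‖(C : ℂ) * x k‖
      rw [norm_mul, norm_mul, Complex.norm_real, Real.norm_of_nonneg hC0]
      have := hC k
      gcongr)

lemma Bd_apply (d : Ix → ℂ) (C : ℝ) (hC : ∀ k, ‖d k‖ ≤ C) (x : HH) (k : Ix) :
    (Bd d C hC x) k = d k * x k := rfl

lemma Bd_compact (d : Ix → ℂ) (C : ℝ) (hC : ∀ k, ‖d k‖ ≤ C) (hd : Tendsto d cofinite (𝓝 0)) :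
    IsCompactOperator (Bd d C hC) := by
  classical
  -- finite truncations
  let F : Finset Ix → HH →L[ℂ] HH := fun s =>
    ∑ k ∈ s, (lp.singleContinuousLinearMap ℂ (fun _ : Ix => ℂ) 2 k).comp
      ((d k) • (lp.evalCLM ℂ (fun _ : Ix => ℂ) 2 k))
  have hFapp : ∀ s x j, (F s x) j = if j ∈ s then d j * x j else 0 := by
    intro s x j
    have e1 : F s x = ∑ k ∈ s, lp.single (E := fun _ : Ix => ℂ) 2 k (d k * x k) := by
      simp only [F, sum_apply]
      rfl
    rw [e1, lp.coeFn_sum, Finset.sum_apply]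
    by_cases hj : j ∈ s
    · rw [if_pos hj, Finset.sum_eq_single j]
      · exact lp.single_apply_self _ _ _
      · intro k _ hk
        exact lp.single_apply_ne _ _ _ hk.symm
      · intro h; exact absurd hj h
    · rw [if_neg hj]
      apply Finset.sum_eq_zero
      intro k hk
      exact lp.single_apply_ne _ _ _ (fun h => hj (h ▸ hk))
  have hFc : ∀ s, IsCompactOperator (F s) := by
    intro s
    have : F s ∈ compactOperator (RingHom.id ℂ) HH HH := by
      refine Submodule.sum_mem _ fun k _ => ?_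
      have h1 : IsCompactOperator (id : ℂ → ℂ) := isCompactOperator_id
      have h2 : IsCompactOperator ((d k) • (lp.evalCLM ℂ (fun _ : Ix => ℂ) 2 k)) :=
        h1.comp_clm ((d k) • (lp.evalCLM ℂ (fun _ : Ix => ℂ) 2 k))
      exact h2.clm_comp (lp.singleContinuousLinearMap ℂ (fun _ : Ix => ℂ) 2 k)
    exact this
  refine isCompactOperator_of_tendsto (F := F) (l := atTop) ?_ (Eventually.of_forall hFc)
  rw [Metric.tendsto_atTop]
  intro ε hε
  have h1 : ∀ᶠ k in cofinite, ‖d k‖ < ε / 2 := by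
    have := (tendsto_zero_iff_norm_tendsto_zero.1 hd).eventually (gt_mem_nhds (half_pos hε))
    exact this
  refine ⟨(Filter.eventually_cofinite.1 h1).toFinset, fun s hs => ?_⟩
  rw [dist_eq_norm]
  refine lt_of_le_of_lt ?_ (half_lt_self hε)
  refine ContinuousLinearMap.opNorm_le_bound _ (by positivity) fun x => ?_
  have e2 : ‖((ε / 2 : ℝ) : ℂ) • x‖ = ε / 2 * ‖x‖ := by
    rw [norm_smul, Complex.norm_real, Real.norm_of_nonneg (by positivity)]
  rw [← e2]
  apply lp.norm_mono (by norm_num)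
  intro j
  change ‖(F s x) j - d j * x j‖ ≤ ‖((ε / 2 : ℝ) : ℂ) * x j‖
  rw [hFapp, norm_mul, Complex.norm_real, Real.norm_of_nonneg (by positivity)]
  by_cases hj : j ∈ s
  · rw [if_pos hj, sub_self, norm_zero]; positivity
  · rw [if_neg hj, zero_sub, norm_neg, norm_mul]
    have h2 : ‖d j‖ < ε / 2 := by
      by_contra h3
      exact hj (hs ((Filter.eventually_cofinite.1 h1).mem_toFinset.2 h3))
    gcongr

/-- swap of the two modes in each block -/
noncomputable def swf (x : HH) : HH := ⟨fun k => x (k.1, !k.2), by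
    have h := memlp2.1 (lp.memℓp x)
    refine memlp2.2 ?_
    have hinj : Function.Injective (fun k : Ix => ((k.1, !k.2) : Ix)) := by
      rintro ⟨a, b⟩ ⟨c, d⟩ h
      simp only [Prod.mk.injEq, Bool.not_inj_iff] at h
      exact Prod.ext h.1 h.2
    exact h.comp_injective hinj⟩

/-- swap of the two modes in each block, as an isometry -/
noncomputable def swp : HH →ₗᵢ[ℂ] HH where
  toFun x := swf x
  map_add' x y := by ext k; rfl
  map_smul' c x := by ext k; rfl
  norm_map' x := by
    have h1 : ‖swf x‖ ^ 2 = ‖x‖ ^ 2 := by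
      rw [norm_sq, norm_sq]
      let e : Ix ≃ Ix := Equiv.prodCongr (Equiv.refl ℕ) (Equiv.boolNot)
      exact e.tsum_eq (fun k => ‖x k‖ ^ 2)
    exact (pow_left_inj₀ (norm_nonneg _) (norm_nonneg _) two_ne_zero).1 h1

/-- The damping: projection on the diagonal direction in each block. -/
noncomputable def PP : HH →L[ℂ] HH :=
  (1 / 2 : ℂ) • (ContinuousLinearMap.id ℂ HH + swp.toContinuousLinearMap)

lemma PP_apply (x : HH) (n : ℕ) (b : Bool) : (PP x) (n, b) = (x (n, b) + x (n, !b)) / 2 := by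
  change (1 / 2 : ℂ) * (x (n, b) + x (n, !b)) = _
  ring

lemma PP_symm (x y : HH) : ⟪PP x, y⟫_ℂ = ⟪x, PP y⟫_ℂ := by
  have hs : ⟪swp x, y⟫_ℂ = ⟪x, swp y⟫_ℂ := by
    have h2 : swp (swp x) = x := by
      ext ⟨n, b⟩
      change x (n, !!b) = x (n, b)
      rw [Bool.not_not]
    have := swp.inner_map_map (swp x) y
    rw [h2] at this
    exact this.symm
  unfold PP
  simp only [smul_apply, add_apply, ContinuousLinearMap.id_apply,
    LinearIsometry.coe_toContinuousLinearMap, inner_smul_left, inner_smul_right, inner_add_left,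
    inner_add_right, hs]
  simp [Complex.conj_ofNat]

lemma PP_idem (x : HH) : PP (PP x) = PP x := by
  ext ⟨n, b⟩
  rw [PP_apply, PP_apply, PP_apply, Bool.not_not]
  ring

lemma PP_adjoint : ContinuousLinearMap.adjoint PP = PP := by
  symm
  rw [ContinuousLinearMap.eq_adjoint_iff]
  exact PP_symm

end Pool.Agent.V1184.Damp
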